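import Pool.Agent.P.MP_7f9919_an.C12.St

/-!
Unitary representations extend to the full group C*-algebra; residual finite dimensionality.
-/

set_option autoImplicit false

namespace Pool.Agent.P.MP_7f9919_an.C12

namespace Ext

variable {G : Type} [Group G] {A : Type} [CStarAlgebra A] {ι : G →* unitary A}

omit [Group G] in
theorem lc_eq {B : Type} [AddCommGroup B] [Module ℂ B] (f : G → B) (c : G →₀ ℂ) :
    Finsupp.linearCombination ℂ f c = ∑ g ∈ c.support, c g • f g := rfl

theorem dense (h : IsFullGroupCStar ι) :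
    DenseRange (Finsupp.linearCombination ℂ fun g => (ι g : A)) := by
  have := h.1
  rwa [← Finsupp.range_linearCombination] at this

theorem ind (h : IsFullGroupCStar ι) {p : A → Prop} (hc : IsClosed {a | p a})
    (h1 : ∀ g, p (ι g)) (h0 : p 0) (ha : ∀ a b, p a → p b → p (a + b))
    (hs : ∀ (c : ℂ) a, p a → p (c • a)) (a : A) : p a := by
  refine h.1.induction (fun a ha' => ?_) hc a
  refine Submodule.span_induction (fun x hx => ?_) h0 (fun x y _ _ => ha x y)
    (fun c x _ => hs c x) ha'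
  obtain ⟨g, rfl⟩ := hx
  exact h1 g

theorem star_rep {B : Type} [Monoid B] [StarMul B] (π : G →* unitary B) (g : G) :
    star (π g : B) = π g⁻¹ := by
  rw [map_inv, ← Unitary.star_eq_inv]
  rfl

end Ext

open Ext

theorem ext : S_ext := by
  intro G _ A _ ι h H _ _ _ π
  let e := Finsupp.linearCombination ℂ fun g => (ι g : A)
  let f := Finsupp.linearCombination ℂ fun g => (π g : H →L[ℂ] H)
  have hn : ∀ c, ‖f c‖ ≤ 1 * ‖e c‖ := fun c => by
    rw [one_mul]
    exact (h.2 c).1 ⟨H, _, _, inferInstance, π, rfl⟩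
  obtain ⟨φ, hφ⟩ : ∃ φ : A →L[ℂ] (H →L[ℂ] H), ∀ g, φ (ι g) = π g :=
    ⟨f.extendOfNorm e, fun g => by
      have := LinearMap.extendOfNorm_eq (dense h) ⟨1, hn⟩ (Finsupp.single g 1)
      simpa [e, f] using this⟩
  have hmul : ∀ a b, φ (a * b) = φ a * φ b := fun a b => by
    refine ind h (p := fun a => φ (a * b) = φ a * φ b) (isClosed_eq (by fun_prop) (by fun_prop))
      (fun g => ?_) (by simp) (fun x y hx hy => by rw [add_mul, map_add, map_add, add_mul, hx, hy])
      (fun c x hx => by rw [smul_mul_assoc, map_smul, map_smul, smul_mul_assoc, hx]) a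
    refine ind h (p := fun b => φ (ι g * b) = φ (ι g) * φ b)
      (isClosed_eq (by fun_prop) (by fun_prop)) (fun g' => ?_) (by simp)
      (fun x y hx hy => by rw [mul_add, map_add, map_add, mul_add, hx, hy])
      (fun c x hx => by rw [mul_smul_comm, map_smul, map_smul, mul_smul_comm, hx]) b
    rw [← Submonoid.coe_mul, ← map_mul, hφ, hφ, hφ, map_mul, Submonoid.coe_mul]
  have hstar : ∀ a, φ (star a) = star (φ a) := fun a => by
    refine ind h (p := fun a => φ (star a) = star (φ a)) (isClosed_eq (by fun_prop) (by fun_prop))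
      (fun g => ?_) (by simp)
      (fun x y hx hy => by rw [star_add, map_add, map_add, star_add, hx, hy])
      (fun c x hx => by rw [star_smul, map_smul, map_smul, star_smul, hx]) a
    rw [star_rep, hφ, hφ, star_rep]
  have hone : φ 1 = 1 := by simpa using hφ 1
  exact ⟨{ AlgHom.ofLinearMap φ.toLinearMap hone hmul with map_star' := hstar }, hφ⟩

theorem resfin (h : S_rfd) : S_resfin := by
  intro A _ ι hι a ha
  by_contra h0
  have hpos : 0 < ‖a‖ / 3 := by have := norm_pos_iff.2 h0; positivity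
  obtain ⟨c, hc⟩ := (dense hι).exists_dist_lt a hpos
  rw [dist_eq_norm, lc_eq] at hc
  have h1 : ‖a‖ / 3 < ‖∑ g ∈ c.support, c g • (ι g : A)‖ := by
    have := norm_sub_norm_le a (∑ g ∈ c.support, c g • (ι g : A))
    linarith
  obtain ⟨_, ⟨H, _, _, _, π, rfl⟩, h2, -⟩ := (hι.2 c).exists_between h1
  obtain ⟨n, u, hu⟩ := h H π c _ h2
  let T := Matrix.toEuclideanCLM (n := Fin n) (𝕜 := ℂ)
  let π' : FF →* unitary (EuclideanSpace ℂ (Fin n) →L[ℂ] EuclideanSpace ℂ (Fin n)) :=
    (Unitary.map (StarMonoidHom.ofClass T)).toMonoidHom.comp u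
  obtain ⟨φ, hφ⟩ := ext FF A ι hι _ π'
  have h3 : T.symm (φ a) = 0 := ha n (T.symm.toStarAlgHom.comp φ)
  have h4 : φ a = 0 := by simpa using h3
  have h5 : φ (∑ g ∈ c.support, c g • (ι g : A)) =
      T (∑ g ∈ c.support, c g • (u g : Matrix (Fin n) (Fin n) ℂ)) := by
    simp only [map_sum, map_smul, hφ]
    rfl
  have h6 := NonUnitalStarAlgHom.norm_apply_le φ (a - ∑ g ∈ c.support, c g • (ι g : A))
  rw [map_sub, h4, zero_sub, norm_neg, h5] at h6
  exact absurd (hu.trans_le h6) (not_lt.2 hc.le)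

end Pool.Agent.P.MP_7f9919_an.C12
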