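import Pool.Agent.P.MP_7f9919_an.C12.St

/-!
The regular pair of representations gives almost invariant vectors.
-/

set_option autoImplicit false

namespace Pool.Agent.P.MP_7f9919_an.C12

open scoped TensorProduct Kronecker Matrix
open Filter

namespace K1

section perm

variable {ι K : Type} [NormedAddCommGroup K] [InnerProductSpace ℂ K] [CompleteSpace K]

omit [CompleteSpace K] in
theorem ext_basis (b : HilbertBasis ι ℂ K) {S T : K →L[ℂ] K} (h : ∀ i, S (b i) = T (b i)) :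
    S = T := by
  refine ContinuousLinearMap.ext_on (s := Set.range b)
    (Submodule.dense_iff_topologicalClosure_eq_top.mpr b.dense_span) ?_
  rintro _ ⟨i, rfl⟩
  exact h i

theorem exists_unitary (b : HilbertBasis ι ℂ K) (e : Equiv.Perm ι) :
    ∃ U : unitary (K →L[ℂ] K), ∀ i, (U : K →L[ℂ] K) (b i) = b (e i) := by
  classical
  let b' : HilbertBasis ι ℂ K := HilbertBasis.mk (b.orthonormal.comp e e.injective) (by
    rw [e.surjective.range_comp, b.dense_span])
  refine ⟨Unitary.linearIsometryEquiv.symm (b.repr.trans b'.repr.symm), fun i => ?_⟩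
  change b'.repr.symm (b.repr (b i)) = _
  rw [b.repr_self, b'.repr_symm_single, HilbertBasis.coe_mk]
  rfl

/-- permutations of a Hilbert basis act by unitaries -/
theorem exists_perm (b : HilbertBasis ι ℂ K) : ∃ U : Equiv.Perm ι →* unitary (K →L[ℂ] K),
    ∀ e i, (U e : K →L[ℂ] K) (b i) = b (e i) := by
  choose U hU using exists_unitary b
  refine ⟨MonoidHom.mk' U fun e e' => Subtype.ext (ext_basis b fun i => ?_), hU⟩
  change _ = (U e : K →L[ℂ] K) ((U e' : K →L[ℂ] K) (b i))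
  rw [hU, hU, hU, Equiv.Perm.mul_apply]

end perm

/-- the left and the right regular representation -/
theorem exists_reg (H : Type) [Group H] :
    ∃ (K : Type) (_ : NormedAddCommGroup K) (_ : InnerProductSpace ℂ K) (_ : CompleteSpace K)
      (L R : H →* unitary (K →L[ℂ] K)) (δ : K), ‖δ‖ = 1 ∧
      (∀ g h, Commute (L g : K →L[ℂ] K) (R h : K →L[ℂ] K)) ∧
      (∀ g, (L g : K →L[ℂ] K) ((R g : K →L[ℂ] K) δ) = δ) ∧
      ∀ g, g ≠ 1 → inner ℂ δ ((L g : K →L[ℂ] K) δ) = 0 := by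
  let b : HilbertBasis H ℂ (lp (fun _ : H => ℂ) 2) := default
  obtain ⟨U, hU⟩ := exists_perm b
  let r : H →* Equiv.Perm H := MonoidHom.mk' (fun h => Equiv.mulRight h⁻¹) fun g h => by
    ext t
    simp [mul_assoc]
  have hL : ∀ g t, ((U.comp (MulAction.toPermHom H H)) g : _ →L[ℂ] _) (b t) = b (g * t) :=
    fun g t => hU _ t
  have hR : ∀ g t, ((U.comp r) g : _ →L[ℂ] _) (b t) = b (t * g⁻¹) := fun g t => hU _ t
  refine ⟨_, inferInstance, inferInstance, inferInstance, U.comp (MulAction.toPermHom H H),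
    U.comp r, b 1, b.orthonormal.1 1, fun g h => ext_basis b fun t => ?_, fun g => ?_,
    fun g hg => ?_⟩
  · rw [mul_apply_eq_comp, mul_apply_eq_comp, hR, hL, hL, hR, mul_assoc]
  · rw [hR, hL, one_mul, mul_inv_cancel]
  · rw [hL, mul_one]
    exact b.orthonormal.2 hg.symm

/-- the geometry of an almost maximal sum -/
theorem geom {V α : Type} [NormedAddCommGroup V] [InnerProductSpace ℂ V] (A : Finset α)
    (y : α → V) (ξ z : V) {M : ℝ} (hM : 0 < M) (hξ : ‖ξ‖ = 1) (hy : ∀ a, ‖y a‖ = 1) (hz : ‖z‖ = 1)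
    (h : 2 * M * A.card + 1 / 2 < ‖(M : ℂ) • ∑ a ∈ A, (y a + ξ) + ξ - z‖) :
    1 / 2 < ‖z - ξ‖ ∧ ∀ a ∈ A, ‖y a - ξ‖ ^ 2 ≤ 6 / M := by
  classical
  have h1 : ∀ a, ‖y a + ξ‖ ≤ 2 := fun a => (norm_add_le _ _).trans (by rw [hy, hξ]; norm_num)
  have h2 : ‖(M : ℂ) • ∑ a ∈ A, (y a + ξ) + ξ - z‖ ≤ M * ‖∑ a ∈ A, (y a + ξ)‖ + ‖z - ξ‖ := by
    rw [add_sub_assoc, norm_sub_rev z]
    refine (norm_add_le _ _).trans_eq ?_
    rw [norm_smul, Complex.norm_real, Real.norm_of_nonneg hM.le]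
  have h3 : ∀ B : Finset α, ‖∑ a ∈ B, (y a + ξ)‖ ≤ 2 * B.card := fun B =>
    (norm_sum_le _ _).trans ((Finset.sum_le_card_nsmul B _ 2 fun a _ => h1 a).trans_eq
      (by rw [nsmul_eq_mul, mul_comm]))
  have h4 : ‖z - ξ‖ ≤ 2 := (norm_sub_le _ _).trans (by rw [hz, hξ]; norm_num)
  refine ⟨by nlinarith [h3 A], fun a ha => ?_⟩
  have h5 : ‖∑ a ∈ A, (y a + ξ)‖ ≤ ‖y a + ξ‖ + 2 * (A.card - 1) := by
    rw [← Finset.add_sum_erase A _ ha]
    refine (norm_add_le _ _).trans (add_le_add le_rfl ((h3 _).trans_eq ?_))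
    rw [Finset.card_erase_of_mem ha, Nat.cast_pred (Finset.card_pos.mpr ⟨a, ha⟩)]
  have h6 := parallelogram_law_with_norm ℂ (y a) ξ
  rw [hy, hξ] at h6
  have h7 : M * (2 - ‖y a + ξ‖) ≤ 3 / 2 := by nlinarith
  rw [le_div_iff₀ hM]
  have h8 := norm_nonneg (y a + ξ)
  have h9 : ‖y a - ξ‖ ^ 2 ≤ 4 * (2 - ‖y a + ξ‖) := by nlinarith [h1 a]
  nlinarith

theorem exists_unit {V : Type} [NormedAddCommGroup V] [NormedSpace ℂ V] {T : V →L[ℂ] V} {r : ℝ}
    (hr : 0 ≤ r) (h : r < ‖T‖) : ∃ ξ, ‖ξ‖ = 1 ∧ r < ‖T ξ‖ := by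
  by_contra hc
  push Not at hc
  exact absurd (ContinuousLinearMap.opNorm_le_of_unit_norm hr hc) (not_le.mpr h)

section mat

variable {m n : Type} [Fintype m] [Fintype n] [DecidableEq m] [DecidableEq n]

/-- a matrix as a vector -/
noncomputable def vec (x : Matrix n m ℂ) : EuclideanSpace ℂ (n × m) :=
  WithLp.toLp 2 fun p => x p.1 p.2

omit [DecidableEq m] [DecidableEq n] in
theorem hs2_eq (x : Matrix n m ℂ) : hs2 x = ‖vec x‖ ^ 2 := by
  rw [EuclideanSpace.norm_sq_eq, hs2, Matrix.trace, Complex.re_sum, Fintype.sum_prod_type_right]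
  refine Finset.sum_congr rfl fun j _ => ?_
  rw [Matrix.diag_apply, Matrix.mul_apply, Complex.re_sum]
  refine Finset.sum_congr rfl fun i _ => ?_
  rw [Matrix.conjTranspose_apply, Complex.star_def, Complex.conj_mul']
  norm_cast

theorem kron_vec (A : Matrix n n ℂ) (B : Matrix m m ℂ) (x : Matrix n m ℂ) :
    Matrix.toEuclideanCLM (n := n × m) (𝕜 := ℂ) (A ⊗ₖ B) (vec x) = vec (A * x * Bᵀ) := by
  rw [vec, Matrix.toEuclideanCLM_toLp, vec]
  congr 1
  funext p
  simp only [Matrix.mulVec, dotProduct, Fintype.sum_prod_type_right, Matrix.mul_apply,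
    Matrix.kroneckerMap_apply, Matrix.transpose_apply, Finset.sum_mul]
  exact Finset.sum_congr rfl fun j _ => Finset.sum_congr rfl fun i _ => by ring

omit [DecidableEq m] in
theorem hs2_left {A : Matrix n n ℂ} (hA : A ∈ Matrix.unitaryGroup n ℂ) (x : Matrix n m ℂ) :
    hs2 (A * x) = hs2 x := by
  rw [hs2, hs2, Matrix.conjTranspose_mul, Matrix.mul_assoc, ← Matrix.mul_assoc Aᴴ,
    show Aᴴ * A = 1 from Matrix.mem_unitaryGroup_iff'.mp hA, Matrix.one_mul]

omit [DecidableEq n] in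
theorem hs2_right {B : Matrix m m ℂ} (hB : B ∈ Matrix.unitaryGroup m ℂ) (x : Matrix n m ℂ) :
    hs2 (x * B) = hs2 x := by
  rw [hs2, hs2, Matrix.conjTranspose_mul, Matrix.mul_assoc, Matrix.trace_mul_comm,
    Matrix.mul_assoc, Matrix.mul_assoc, show B * Bᴴ = 1 from Matrix.mem_unitaryGroup_iff.mp hB,
    Matrix.mul_one]

/-- entrywise conjugation of unitary matrices -/
noncomputable def conj : Matrix.unitaryGroup m ℂ →* Matrix.unitaryGroup m ℂ :=
  MonoidHom.mk' Matrix.UnitaryGroup.map_star fun U V => Subtype.ext (by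
    ext i j
    simp [Matrix.mul_apply])

theorem transpose_mul_conj (U : Matrix.unitaryGroup m ℂ) :
    (U : Matrix m m ℂ)ᵀ * (conj U : Matrix m m ℂ) = 1 := by
  have h : (U : Matrix m m ℂ)ᴴ * U = 1 := Matrix.mem_unitaryGroup_iff'.mp U.2
  have := congrArg Matrix.transpose h
  rw [Matrix.transpose_mul, Matrix.transpose_one] at this
  exact this

end mat

/-- the test element of the group algebra -/
noncomputable def elt (A : Finset (FF × FF)) (M : ℝ) (w0 : FF) : FF × FF →₀ ℂ :=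
  (M : ℂ) • ∑ a ∈ A, (Finsupp.single a 1 + Finsupp.single 1 1) + Finsupp.single 1 1 -
    Finsupp.single (w0, 1) 1

theorem sum_elt {V : Type} [AddCommGroup V] [Module ℂ V] (A : Finset (FF × FF)) (M : ℝ) (w0 : FF)
    (f : FF × FF → V) : ∑ p ∈ (elt A M w0).support, elt A M w0 p • f p =
      (M : ℂ) • ∑ a ∈ A, (f a + f 1) + f 1 - f (w0, 1) := by
  change Finsupp.linearCombination ℂ f (elt A M w0) = _
  simp only [elt, map_sub, map_add, map_smul, map_sum, Finsupp.linearCombination_single, one_smul]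

end K1

open K1 in
theorem k1 : S_K1 := by
  classical
  intro hs H _ q w0 hw E W hW ε hε
  obtain ⟨K, _, _, _, L, R, δ, h1, h2, h3, h4⟩ := exists_reg H
  let A : Finset (FF × FF) := E.image (fun g => (g, g)) ∪ W.image fun w => (w, 1)
  have hM : 0 < 6 / ε := by positivity
  set M := 6 / ε with hMd
  have low : 2 * M * A.card + 1 / 2 < ‖∑ p ∈ (elt A M w0).support, elt A M w0 p •
      (((L.comp q) p.1 : K →L[ℂ] K) * ((R.comp q) p.2 : K →L[ℂ] K))‖ := by
    rw [sum_elt]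
    set T := (M : ℂ) • ∑ a ∈ A, (((L.comp q) a.1 : K →L[ℂ] K) * ((R.comp q) a.2 : K →L[ℂ] K) +
      ((L.comp q) (1 : FF × FF).1 : K →L[ℂ] K) * ((R.comp q) (1 : FF × FF).2 : K →L[ℂ] K)) +
      ((L.comp q) (1 : FF × FF).1 : K →L[ℂ] K) * ((R.comp q) (1 : FF × FF).2 : K →L[ℂ] K) -
      ((L.comp q) w0 : K →L[ℂ] K) * ((R.comp q) 1 : K →L[ℂ] K) with hT
    have fix : ∀ a ∈ A, (L (q a.1) : K →L[ℂ] K) ((R (q a.2) : K →L[ℂ] K) δ) = δ := by
      intro a ha
      rcases Finset.mem_union.mp ha with ha | ha <;> obtain ⟨g, hg, rfl⟩ := Finset.mem_image.mp ha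
      · exact h3 _
      · have : q g = 1 := hW g hg
        simp [this]
    have e : T δ = (M : ℂ) • ∑ _a ∈ A, (δ + δ) + δ - (L (q w0) : K →L[ℂ] K) δ := by
      simp only [hT, _root_.sub_apply, _root_.add_apply,
        _root_.smul_apply, _root_.sum_apply,
        mul_apply_eq_comp, MonoidHom.comp_apply, Prod.fst_one, Prod.snd_one, map_one,
        OneMemClass.coe_one, one_apply_eq_self]
      rw [Finset.sum_congr rfl fun a ha => by rw [fix a ha]]
    have e2 : inner ℂ δ (T δ) = ((2 * M * A.card + 1 : ℝ) : ℂ) := by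
      rw [e, inner_sub_right, h4 _ hw, inner_add_right, inner_smul_right, inner_sum]
      simp only [inner_add_right, inner_self_eq_norm_sq_to_K, h1, Finset.sum_const, nsmul_eq_mul]
      push_cast
      ring
    have e3 := norm_inner_le_norm (𝕜 := ℂ) δ (T δ)
    rw [e2, Complex.norm_real, Real.norm_of_nonneg (by positivity), h1, one_mul] at e3
    have e4 := T.le_opNorm δ
    rw [h1, mul_one] at e4
    linarith
  have : ∃ (n m : ℕ) (u : FF →* Matrix.unitaryGroup (Fin n) ℂ)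
      (v : FF →* Matrix.unitaryGroup (Fin m) ℂ), 2 * M * A.card + 1 / 2 <
      opn (∑ p ∈ (elt A M w0).support, elt A M w0 p •
        ((u p.1 : Matrix (Fin n) (Fin n) ℂ) ⊗ₖ (v p.2 : Matrix (Fin m) (Fin m) ℂ))) := by
    by_contra hc
    push Not at hc
    exact hs ⟨K, _, _, inferInstance, L.comp q, R.comp q, _, _, fun g h => h2 _ _, low, hc⟩
  obtain ⟨n, m, u, v, huv⟩ := this
  rw [sum_elt, opn] at huv
  obtain ⟨ξ, hξ, hlt⟩ := exists_unit (by positivity) huv
  obtain ⟨x, rfl⟩ : ∃ x : Matrix (Fin n) (Fin m) ℂ, ξ = vec x :=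
    ⟨Matrix.of fun i j => ξ (i, j), rfl⟩
  have hx : hs2 x = 1 := by rw [hs2_eq, hξ, one_pow]
  have iso : ∀ a : FF × FF, ‖vec ((u a.1 : Matrix (Fin n) (Fin n) ℂ) * x *
      (v a.2 : Matrix (Fin m) (Fin m) ℂ)ᵀ)‖ = 1 := fun a => by
    rw [← pow_eq_one_iff_of_nonneg (norm_nonneg _) two_ne_zero, ← hs2_eq,
      hs2_right (B := (v a.2 : Matrix (Fin m) (Fin m) ℂ)ᵀ)
        (Matrix.UnitaryGroup.transpose (v a.2)).2, hs2_left (u a.1).2, hx]
  simp only [map_sub, map_add, map_smul, map_sum, _root_.sub_apply,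
    _root_.add_apply, _root_.smul_apply, _root_.sum_apply,
    kron_vec, Prod.fst_one, Prod.snd_one, map_one, OneMemClass.coe_one, Matrix.one_mul,
    Matrix.transpose_one, Matrix.mul_one] at hlt
  have iso0 := iso (w0, 1)
  simp only [map_one, OneMemClass.coe_one, Matrix.transpose_one, Matrix.mul_one] at iso0
  obtain ⟨g1, g2⟩ := geom A _ _ _ hM hξ iso iso0 hlt
  have e6 : 6 / M = ε := by rw [hMd]; field_simp
  have vsub : ∀ y y' : Matrix (Fin n) (Fin m) ℂ, vec y - vec y' = vec (y - y') := fun _ _ => rfl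
  refine ⟨n, m, u, conj.comp v, x, hx, fun g hg => ?_, fun w hw => ?_, ?_⟩
  · have := g2 (g, g) (Finset.mem_union_left _ (Finset.mem_image_of_mem _ hg))
    rw [vsub, ← hs2_eq, e6, ← hs2_right (conj (v g)).2, Matrix.sub_mul, Matrix.mul_assoc,
      transpose_mul_conj, Matrix.mul_one] at this
    exact this
  · have := g2 (w, 1) (Finset.mem_union_right _ (Finset.mem_image_of_mem _ hw))
    rw [vsub, ← hs2_eq, e6] at this
    simpa only [map_one, OneMemClass.coe_one, Matrix.transpose_one, Matrix.mul_one,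
      Matrix.sub_mul, Matrix.one_mul] using this
  · rw [Matrix.sub_mul, Matrix.one_mul, hs2_eq, ← vsub]
    nlinarith

end Pool.Agent.P.MP_7f9919_an.C12
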