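import Pool.Agent.P.MP_7f9919_an.C12.K2

/-!
From almost invariant subspaces to asymptotic representations.
-/

set_option autoImplicit false
set_option linter.unusedSectionVars false

namespace Pool.Agent.P.MP_7f9919_an.C12

open scoped Matrix
open Matrix Finset Filter

theorem step_asymp {H : Type} [Group H] (q : FF →* H) (hq : Function.Surjective q) (w0 : FF)
    (h : AlmIso {w | q w = 1} w0) (T : Finset H) {ε : ℝ} (hε : 0 < ε) :
    ∃ (d : ℕ) (v : H → Matrix (Fin d) (Fin d) ℂ), 0 < d ∧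
      (∀ g, v g ∈ Matrix.unitaryGroup (Fin d) ℂ) ∧
      (∀ g ∈ T, ∀ k ∈ T, hs2 (v (g * k) - v g * v k) ≤ 52 * ε * d) ∧
      (1 / 16 - 10 * ε) * d ≤ hs2 (v (q w0) - 1) := by
  classical
  obtain ⟨s, hs⟩ := hq.hasRightInverse
  obtain ⟨n, d, u, V, hd, hV, hE, hW, h0⟩ := h
    (insert (s (q w0)) (T.image s ∪ (T ×ˢ T).image fun p => s (p.1 * p.2)))
    (insert (w0⁻¹ * s (q w0)) ((T ×ˢ T).image fun p => (s (p.1 * p.2))⁻¹ * (s p.1 * s p.2)))
    (by
      intro w hw
      rcases mem_insert.1 hw with rfl | hw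
      · simp [hs _]
      · obtain ⟨p, -, rfl⟩ := mem_image.1 hw
        simp [hs _]) ε hε
  have hU : ∀ g, (u g : Matrix (Fin n) (Fin n) ℂ)ᴴ * u g = 1 := fun g =>
    Matrix.mem_unitaryGroup_iff'.1 (u g).2
  choose v hv hv' using fun g : H => exists_unitary_transport hV (hU (s g))
  have hv2 : ∀ g, v g * (v g)ᴴ = 1 := fun g => Matrix.mem_unitaryGroup_iff.1 (hv g)
  have hm : ∀ a b : FF, (u a : Matrix (Fin n) (Fin n) ℂ) * ((u (a⁻¹ * b) : Matrix (Fin n) (Fin n) ℂ)
      - 1) = u b - u a := fun a b => by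
    rw [Matrix.mul_sub, Matrix.mul_one, ← Submonoid.coe_mul, ← map_mul, mul_inv_cancel_left]
  refine ⟨d, v, hd, hv, fun g hg k hk => ?_, ?_⟩
  · have a1 := (hv' g).trans (mul_le_mul_of_nonneg_left
      (hE _ (mem_insert_of_mem (mem_union_left _ (mem_image_of_mem s hg)))) (by norm_num))
    have a2 := (hv' k).trans (mul_le_mul_of_nonneg_left
      (hE _ (mem_insert_of_mem (mem_union_left _ (mem_image_of_mem s hk)))) (by norm_num))
    have hp : (g, k) ∈ T ×ˢ T := mem_product.2 ⟨hg, hk⟩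
    have a3 := (hv' (g * k)).trans (mul_le_mul_of_nonneg_left
      (hE _ (mem_insert_of_mem (mem_union_right _
        (mem_image_of_mem (fun p : H × H => s (p.1 * p.2)) hp)))) (by norm_num))
    have a4 := hW _ (mem_insert_of_mem
      (mem_image_of_mem (fun p : H × H => (s (p.1 * p.2))⁻¹ * (s p.1 * s p.2)) hp))
    simp only at a3 a4
    rw [← hs2_iso_mul (hU (s (g * k))), ← Matrix.mul_assoc, hm] at a4
    rw [← hs2_iso_mul (hU (s g))] at a2
    rw [← hs2_mul_coiso (hv2 k)] at a1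
    have e : V * (v g * v k - v (g * k)) =
        ((u (s (g * k)) : Matrix (Fin n) (Fin n) ℂ) * V - V * v (g * k) +
          ((u (s g * s k) : Matrix (Fin n) (Fin n) ℂ) - (u (s (g * k)) : Matrix (Fin n) (Fin n) ℂ)) * V) +
        -((u (s g) : Matrix (Fin n) (Fin n) ℂ) * ((u (s k) : Matrix (Fin n) (Fin n) ℂ) * V -
            V * v k) + ((u (s g) : Matrix (Fin n) (Fin n) ℂ) * V - V * v g) * v k) := by
      rw [map_mul, Submonoid.coe_mul]
      simp only [Matrix.mul_sub, Matrix.sub_mul, Matrix.mul_assoc]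
      abel
    rw [hs2_sub_comm, ← hs2_iso_mul hV, e]
    refine (hs2_add_le _ _).trans ?_
    rw [hs2_neg]
    have b1 := hs2_add_le ((u (s (g * k)) : Matrix (Fin n) (Fin n) ℂ) * V - V * v (g * k))
      (((u (s g * s k) : Matrix (Fin n) (Fin n) ℂ) - (u (s (g * k)) : Matrix (Fin n) (Fin n) ℂ)) * V)
    have b2 := hs2_add_le ((u (s g) : Matrix (Fin n) (Fin n) ℂ) *
      ((u (s k) : Matrix (Fin n) (Fin n) ℂ) * V - V * v k))
      (((u (s g) : Matrix (Fin n) (Fin n) ℂ) * V - V * v g) * v k)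
    linarith
  · have a1 := (hv' (q w0)).trans (mul_le_mul_of_nonneg_left
      (hE _ (mem_insert_self _ _)) (by norm_num))
    have a2 := hW _ (mem_insert_self _ _)
    rw [← hs2_iso_mul (hU w0), ← Matrix.mul_assoc, hm, ← hs2_neg] at a2
    have e : ((u w0 : Matrix (Fin n) (Fin n) ℂ) - 1) * V =
        (-(((u (s (q w0)) : Matrix (Fin n) (Fin n) ℂ) - (u w0 : Matrix (Fin n) (Fin n) ℂ)) * V) +
          ((u (s (q w0)) : Matrix (Fin n) (Fin n) ℂ) * V - V * v (q w0))) +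
        V * (v (q w0) - 1) := by
      simp only [Matrix.mul_sub, Matrix.sub_mul, Matrix.one_mul, Matrix.mul_one]
      abel
    rw [e] at h0
    have b1 := h0.trans (hs2_add_le _ _)
    rw [hs2_iso_mul hV] at b1
    have b2 := hs2_add_le (-(((u (s (q w0)) : Matrix (Fin n) (Fin n) ℂ) - (u w0 : Matrix (Fin n) (Fin n) ℂ)) * V))
      ((u (s (q w0)) : Matrix (Fin n) (Fin n) ℂ) * V - V * v (q w0))
    linarith

theorem asymp_of_almIso {H : Type} [Group H] (q : FF →* H) (hq : Function.Surjective q) (w0 : FF)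
    (h : AlmIso {w | q w = 1} w0) :
    ∃ (n : ℕ → ℕ) (u : ∀ k, H → Matrix (Fin (n k)) (Fin (n k)) ℂ),
      (∀ k g, u k g ∈ Matrix.unitaryGroup (Fin (n k)) ℂ) ∧
      (∀ g h, ∀ ε : ℝ, 0 < ε → ∀ᶠ k in atTop, hs2 (u k (g * h) - u k g * u k h) ≤ ε * n k) ∧
      ∀ᶠ k in atTop, 1 / 100 * (n k : ℝ) < hs2 (u k (q w0) - 1) := by
  classical
  have : Countable H := hq.countable
  obtain ⟨e, he⟩ := exists_surjective_nat H
  choose n u h0 h1 h2 h3 using fun k : ℕ =>
    step_asymp q hq w0 h ((range k).image e) (ε := 1 / ((k : ℝ) + 1)) Nat.one_div_pos_of_nat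
  have hl : ∀ δ : ℝ, 0 < δ → ∀ᶠ k : ℕ in atTop, 1 / ((k : ℝ) + 1) ≤ δ := fun δ hδ =>
    tendsto_one_div_add_atTop_nhds_zero_nat.eventually (eventually_le_nhds hδ)
  refine ⟨n, u, h1, fun g g' ε hε => ?_, ?_⟩
  · obtain ⟨i, rfl⟩ := he g
    obtain ⟨j, rfl⟩ := he g'
    filter_upwards [eventually_gt_atTop i, eventually_gt_atTop j, hl (ε / 52) (by positivity)]
      with k hi hj hk
    refine (h2 k _ (mem_image_of_mem e (mem_range.2 hi)) _
      (mem_image_of_mem e (mem_range.2 hj))).trans ?_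
    exact mul_le_mul_of_nonneg_right (by linarith) (Nat.cast_nonneg _)
  · filter_upwards [hl (1 / 200) (by norm_num)] with k hk
    refine lt_of_lt_of_le ?_ (h3 k)
    exact mul_lt_mul_of_pos_right (by linarith) (by exact_mod_cast h0 k)

theorem sep_of_NH (h1 : S_K1) (h : S_NH) : Sep := by
  by_contra hs
  obtain ⟨H, _, _, w, hw, hH⟩ := h
  obtain ⟨e, he⟩ := exists_surjective_nat H
  have hq : Function.Surjective (FreeGroup.lift e) := fun g => by
    obtain ⟨k, rfl⟩ := he g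
    exact ⟨FreeGroup.of k, by simp⟩
  obtain ⟨w0, rfl⟩ := hq w
  obtain ⟨n, u, hu, hm, hl⟩ := asymp_of_almIso _ hq w0 (almIso_of_almVec (h1 hs H _ w0 hw))
  obtain ⟨k, k1, k2⟩ := (hl.and (hH n u hu hm (1 / 100) (by norm_num))).exists
  exact absurd k2 (not_le.2 k1)

end Pool.Agent.P.MP_7f9919_an.C12
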