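import Pool.Agent.P.MP_7f9919_an.C12.St
import Pool.Agent.P.MP_7f9919_an.Prod

/-!
Lower bound for the number of C*-norms on the tensor square of the full group C*-algebra of the
free group.
-/

set_option autoImplicit false

namespace Pool.Agent.P.MP_7f9919_an.C12

open scoped TensorProduct Kronecker Matrix

namespace Many

section Semi

variable {C : Type} [Ring C] [StarRing C] [Algebra ℂ C]

theorem semi_hom {B : Type} [CStarAlgebra B] (θ : C →ₐ[ℂ] B)
    (hθ : ∀ x, θ (star x) = star (θ x)) : IsCStarSemi fun x => ‖θ x‖ where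
  nonneg _ := norm_nonneg _
  add_le x y := by rw [map_add]; exact norm_add_le _ _
  smul c x := by rw [map_smul, norm_smul]
  mul_le x y := by rw [map_mul]; exact norm_mul_le _ _
  star_eq x := by rw [hθ, norm_star]
  cstar x := by rw [map_mul, hθ, CStarRing.norm_star_mul_self, sq]

theorem semi_iSup {I : Type} (μ : I → C → ℝ) (h : ∀ i, IsCStarSemi (μ i))
    (hb : ∀ x, BddAbove (Set.range fun i => μ i x)) : IsCStarSemi fun x => ⨆ i, μ i x := by
  have h0 : ∀ x, 0 ≤ ⨆ i, μ i x := fun x => Real.iSup_nonneg fun i => (h i).nonneg x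
  have hle : ∀ i x, μ i x ≤ ⨆ i, μ i x := fun i x => le_ciSup (hb x) i
  refine ⟨h0, fun x y => ?_, fun c x => ?_, fun x y => ?_, fun x => ?_, fun x => ?_⟩
  · exact Real.iSup_le (fun i => ((h i).add_le x y).trans (add_le_add (hle i x) (hle i y)))
      (add_nonneg (h0 x) (h0 y))
  · rw [Real.mul_iSup_of_nonneg (norm_nonneg c)]
    exact iSup_congr fun i => (h i).smul c x
  · exact Real.iSup_le (fun i => ((h i).mul_le x y).trans
      (mul_le_mul (hle i x) (hle i y) ((h i).nonneg y) (h0 x))) (mul_nonneg (h0 x) (h0 y))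
  · exact iSup_congr fun i => (h i).star_eq x
  · refine le_antisymm (Real.iSup_le (fun i => ?_) (sq_nonneg _)) ?_
    · rw [(h i).cstar]
      exact pow_le_pow_left₀ ((h i).nonneg x) (hle i x) 2
    · refine (Real.le_sqrt (h0 x) (h0 _)).1 (Real.iSup_le (fun i => ?_) (Real.sqrt_nonneg _))
      refine Real.le_sqrt_of_sq_le ?_
      rw [← (h i).cstar]
      exact hle i _

theorem semi_zero {ν : C → ℝ} (h : IsCStarSemi ν) : ν 0 = 0 := by
  have := h.smul 0 0
  rwa [zero_smul, norm_zero, zero_mul] at this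

theorem semi_one_le {ν : C → ℝ} (h : IsCStarSemi ν) : ν 1 ≤ 1 := by
  have h1 := h.cstar 1
  rw [star_one, one_mul] at h1
  have h2 := h.nonneg 1
  nlinarith

theorem semi_unit_le {ν : C → ℝ} (h : IsCStarSemi ν) {u : C} (hu : star u * u = 1) :
    ν u ≤ 1 := by
  have h1 := h.cstar u
  rw [hu] at h1
  have h2 := semi_one_le h
  have h3 := h.nonneg u
  nlinarith

theorem semi_half_le {ν : C → ℝ} (h : IsCStarSemi ν) {u : C} (hu : star u * u = 1) (y : C) :
    ν ((1 / 2 : ℂ) • (y - u * y)) ≤ ν y := by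
  have h1 : y - u * y = y + (-1 : ℂ) • (u * y) := by rw [neg_one_smul, sub_eq_add_neg]
  have h2 := h.add_le y ((-1 : ℂ) • (u * y))
  rw [h.smul, norm_neg, norm_one, one_mul] at h2
  have h3 := (h.mul_le u y).trans
    (mul_le_mul_of_nonneg_right (semi_unit_le h hu) (h.nonneg y))
  have h4 : ‖(1 / 2 : ℂ)‖ = 1 / 2 := by simp
  rw [h.smul, h1, h4]
  linarith

end Semi

theorem bound (h2 : S_cross) {A : Type} [CStarAlgebra A] (x : A ⊗[ℂ] A) :
    ∃ K : ℝ, ∀ ν : A ⊗[ℂ] A → ℝ, IsCStarSemi ν → ν x ≤ K := by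
  induction x with
  | zero => exact ⟨0, fun ν h => (semi_zero h).le⟩
  | tmul a b => exact ⟨_, fun ν h => h2 A A ν h a b⟩
  | add a b ha hb =>
    obtain ⟨K, hK⟩ := ha
    obtain ⟨L, hL⟩ := hb
    exact ⟨K + L, fun ν h => (h.add_le a b).trans (add_le_add (hK ν h) (hL ν h))⟩

theorem lift_star {A B : Type} [CStarAlgebra A] [CStarAlgebra B] (φ ψ : A →⋆ₐ[ℂ] B)
    (hc : ∀ a b, Commute (φ.toAlgHom a) (ψ.toAlgHom b)) (x : A ⊗[ℂ] A) :
    Algebra.TensorProduct.lift φ.toAlgHom ψ.toAlgHom hc (star x) =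
      star (Algebra.TensorProduct.lift φ.toAlgHom ψ.toAlgHom hc x) := by
  induction x with
  | zero => simp
  | add a b ha hb => rw [star_add, map_add, map_add, star_add, ha, hb]
  | tmul a b =>
    rw [TensorProduct.star_tmul, Algebra.TensorProduct.lift_tmul, Algebra.TensorProduct.lift_tmul,
      star_mul, (hc _ _).eq]
    show ψ (star b) * φ (star a) = star (ψ b) * star (φ a)
    rw [map_star, map_star]

open scoped CStarAlgebra in
theorem commute_ext {G A B : Type} [CStarAlgebra A] [CStarAlgebra B] (e : G → A)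
    (hd : Dense (Submodule.span ℂ (Set.range e) : Set A)) (φ : A →⋆ₐ[ℂ] B) (b : B)
    (hc : ∀ g, Commute (φ (e g)) b) (a : A) : Commute (φ a) b := by
  have hcl : IsClosed {a : A | φ a * b = b * φ a} :=
    isClosed_eq ((map_continuous φ).mul continuous_const)
      (continuous_const.mul (map_continuous φ))
  refine hd.induction (P := fun a => φ a * b = b * φ a) (fun a ha => ?_) hcl a
  induction ha using Submodule.span_induction with
  | mem x hx =>
    obtain ⟨g, rfl⟩ := hx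
    exact hc g
  | zero => simp
  | add x y _ _ hx hy => rw [map_add, add_mul, mul_add, hx, hy]
  | smul c x _ hx => rw [map_smul, smul_mul_assoc, mul_smul_comm, hx]

theorem commute_free {G : Type} [Group G] (f g : FF →* G)
    (h : ∀ i j, Commute (f (FreeGroup.of i)) (g (FreeGroup.of j))) (x y : FF) :
    Commute (f x) (g y) := by
  induction x using FreeGroup.induction_on with
  | C1 => rw [map_one]; exact Commute.one_left _
  | of i =>
    induction y using FreeGroup.induction_on with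
    | C1 => rw [map_one]; exact Commute.one_right _
    | of j => exact h i j
    | inv_of j hj => rw [map_inv]; exact hj.inv_right
    | mul a b ha hb => rw [map_mul]; exact ha.mul_right hb
  | inv_of i hi => rw [map_inv]; exact hi.inv_left
  | mul a b ha hb => rw [map_mul]; exact ha.mul_left hb

/-- The tensor product of two finite dimensional representations. -/
noncomputable def kr {A : Type} [CStarAlgebra A] {n m : ℕ}
    (φ : A →⋆ₐ[ℂ] Matrix (Fin n) (Fin n) ℂ) (ψ : A →⋆ₐ[ℂ] Matrix (Fin m) (Fin m) ℂ) :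
    A ⊗[ℂ] A →ₐ[ℂ] Matrix (Fin n × Fin m) (Fin n × Fin m) ℂ :=
  (Matrix.kroneckerAlgEquiv (Fin n) (Fin m) ℂ).toAlgHom.comp
    (Algebra.TensorProduct.map φ.toAlgHom ψ.toAlgHom)

theorem kr_tmul {A : Type} [CStarAlgebra A] {n m : ℕ}
    (φ : A →⋆ₐ[ℂ] Matrix (Fin n) (Fin n) ℂ) (ψ : A →⋆ₐ[ℂ] Matrix (Fin m) (Fin m) ℂ) (a b : A) :
    kr φ ψ (a ⊗ₜ b) = φ a ⊗ₖ ψ b := by
  simp [kr]

theorem kr_star {A : Type} [CStarAlgebra A] {n m : ℕ}
    (φ : A →⋆ₐ[ℂ] Matrix (Fin n) (Fin n) ℂ) (ψ : A →⋆ₐ[ℂ] Matrix (Fin m) (Fin m) ℂ)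
    (x : A ⊗[ℂ] A) : kr φ ψ (star x) = star (kr φ ψ x) := by
  induction x with
  | zero => simp
  | add a b ha hb => rw [star_add, map_add, map_add, star_add, ha, hb]
  | tmul a b =>
    rw [TensorProduct.star_tmul, kr_tmul, kr_tmul, map_star, map_star,
      Matrix.star_eq_conjTranspose, Matrix.star_eq_conjTranspose, Matrix.star_eq_conjTranspose,
      Matrix.conjTranspose_kronecker]

theorem kr_semi {A : Type} [CStarAlgebra A] {n m : ℕ}
    (φ : A →⋆ₐ[ℂ] Matrix (Fin n) (Fin n) ℂ) (ψ : A →⋆ₐ[ℂ] Matrix (Fin m) (Fin m) ℂ) :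
    IsCStarSemi fun x => opn (kr φ ψ x) :=
  semi_hom (((Matrix.toEuclideanCLM (n := Fin n × Fin m) (𝕜 := ℂ)).toAlgEquiv.toAlgHom).comp
    (kr φ ψ)) fun x => by
      show Matrix.toEuclideanCLM (n := Fin n × Fin m) (𝕜 := ℂ) (kr φ ψ (star x)) =
        star (Matrix.toEuclideanCLM (n := Fin n × Fin m) (𝕜 := ℂ) (kr φ ψ x))
      rw [kr_star, map_star]

theorem kr_faithful {A : Type} [CStarAlgebra A]
    (h : ∀ a : A, (∀ (n : ℕ) (φ : A →⋆ₐ[ℂ] Matrix (Fin n) (Fin n) ℂ), φ a = 0) → a = 0)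
    (x : A ⊗[ℂ] A) (hx : ∀ (n m : ℕ) (φ : A →⋆ₐ[ℂ] Matrix (Fin n) (Fin n) ℂ)
      (ψ : A →⋆ₐ[ℂ] Matrix (Fin m) (Fin m) ℂ), opn (kr φ ψ x) = 0) : x = 0 := by
  let f : (Σ n : ℕ, (A →⋆ₐ[ℂ] Matrix (Fin n) (Fin n) ℂ) × Fin n × Fin n) → A →ₗ[ℂ] ℂ :=
    fun i => (Matrix.entryLinearMap ℂ ℂ i.2.2.1 i.2.2.2).comp i.2.1.toAlgHom.toLinearMap
  have hf : ∀ a, (∀ i, f i a = 0) → a = 0 := fun a ha =>
    h a fun n φ => Matrix.ext fun i j => ha ⟨n, φ, i, j⟩
  refine eq_zero_of_sep f f hf hf (fun i j =>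
    (Matrix.entryLinearMap ℂ ℂ (i.2.2.1, j.2.2.1) (i.2.2.2, j.2.2.2)).comp
      (kr i.2.1 j.2.1).toLinearMap) (fun i j a b => ?_) x fun i j => ?_
  · show kr i.2.1 j.2.1 (a ⊗ₜ b) _ _ = _
    rw [kr_tmul]
    rfl
  · have h1 := hx _ _ i.2.1 j.2.1
    rw [opn, norm_eq_zero, map_eq_zero_iff _ (EquivLike.injective _)] at h1
    show kr i.2.1 j.2.1 x _ _ = 0
    rw [h1]
    rfl

/-- A unitary representation composed with a star homomorphism. -/
def umap {G A B : Type} [Group G] [CStarAlgebra A] [Ring B] [StarRing B] [Algebra ℂ B]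
    (α : A →⋆ₐ[ℂ] B) (ι : G →* unitary A) : G →* unitary B where
  toFun g := ⟨α (ι g), Unitary.map_mem α (ι g).2⟩
  map_one' := Subtype.ext (by simp)
  map_mul' g h := Subtype.ext (by simp)

/-- The embedding onto the odd generators. -/
noncomputable def jj : FF →* FF := FreeGroup.lift fun k => FreeGroup.of (2 * k + 1)

/-- Extension of a homomorphism with prescribed values on the even generators. -/
noncomputable def ext {G : Type} [Group G] (L : FF →* G) (z : ℕ → G) : FF →* G :=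
  FreeGroup.lift fun n => if n % 2 = 1 then L (FreeGroup.of (n / 2)) else z (n / 2)

theorem ext_jj {G : Type} [Group G] (L : FF →* G) (z : ℕ → G) (g : FF) :
    ext L z (jj g) = L g := by
  have : (ext L z).comp jj = L := by
    refine FreeGroup.ext_hom _ _ fun k => ?_
    have h1 : (2 * k + 1) % 2 = 1 := by omega
    have h2 : (2 * k + 1) / 2 = k := by omega
    simp [ext, jj, h1, h2]
  exact DFunLike.congr_fun this g

theorem ext_even {G : Type} [Group G] (L : FF →* G) (z : ℕ → G) (k : ℕ) :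
    ext L z (FreeGroup.of (2 * k)) = z k := by
  simp [ext]

theorem ext_commute {G : Type} [Group G] (L R : FF →* G) (z : ℕ → G)
    (h : ∀ g g', Commute (L g) (R g')) (hz : ∀ k g, Commute (z k) g) (x y : FF) :
    Commute (ext L z x) (ext R (fun _ => 1) y) := by
  refine commute_free _ _ (fun i j => ?_) x y
  simp only [ext, FreeGroup.lift_apply_of]
  split_ifs
  · exact h _ _
  · exact Commute.one_right _
  · exact hz _ _
  · exact Commute.one_right _

end Many

open Many in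
theorem many (h1 : S_ext) (h2 : S_cross) (h3 : S_resfin) : S_many := by
  classical
  rintro ⟨H, _, _, _, L, R, c, r, hLR, hr, hfin⟩ A _ ι hι
  have hr0 : 0 ≤ r := le_trans (norm_nonneg _) (hfin 0 0 1 1)
  let z : ℕ → ℕ → unitary (H →L[ℂ] H) := fun k i => if i = k then -1 else 1
  have hz : ∀ k i g, Commute (z k i) g := by
    intro k i g
    simp only [z]
    split_ifs
    · exact (Commute.one_left g).neg_left
    · exact Commute.one_left g
  choose φ hφ using fun k => h1 FF A ι hι H (ext L (z k))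
  obtain ⟨ψ, hψ⟩ := h1 FF A ι hι H (ext R fun _ => 1)
  have hc : ∀ k a b, Commute ((φ k).toAlgHom a) (ψ.toAlgHom b) := by
    intro k a b
    refine commute_ext _ hι.1 (φ k) (ψ b) (fun g => ?_) a
    refine (commute_ext _ hι.1 ψ (φ k (ι g)) (fun g' => ?_) b).symm
    rw [hφ, hψ]
    exact congrArg Subtype.val
      (ext_commute L R (z k) (fun a b => Subtype.ext (hLR a b)) (hz k) g g').symm.eq
  let Θ : ℕ → A ⊗[ℂ] A →ₐ[ℂ] (H →L[ℂ] H) := fun k =>
    Algebra.TensorProduct.lift (φ k).toAlgHom ψ.toAlgHom (hc k)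
  have hΘ : ∀ k (g g' : FF), Θ k ((ι g : A) ⊗ₜ (ι g' : A)) =
      (ext L (z k) g : H →L[ℂ] H) * (ext R (fun _ => 1) g' : unitary (H →L[ℂ] H)) := by
    intro k g g'
    rw [← hφ, ← hψ]
    rfl
  let y : A ⊗[ℂ] A := ∑ p ∈ c.support, c p • ((ι (jj p.1) : A) ⊗ₜ (ι (jj p.2) : A))
  let u : ℕ → A ⊗[ℂ] A := fun k => (ι (FreeGroup.of (2 * k)) : A) ⊗ₜ (ι 1 : A)
  have hu : ∀ k, star (u k) * u k = 1 := by
    intro k
    simp only [u]
    rw [TensorProduct.star_tmul, Algebra.TensorProduct.tmul_mul_tmul, Unitary.coe_star_mul_self,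
      Unitary.coe_star_mul_self]
    rfl
  let x : ℕ → A ⊗[ℂ] A := fun k => (1 / 2 : ℂ) • (y - u k * y)
  have hy : ∀ k, r < ‖Θ k y‖ := by
    intro k
    simp only [y, map_sum, map_smul, hΘ, ext_jj]
    exact hr
  have hΘu : ∀ k i, Θ k (u i) = (z k i : H →L[ℂ] H) := by
    intro k i
    simp only [u]
    rw [hΘ, ext_even, map_one]
    simp
  have hx1 : ∀ k, Θ k (x k) = Θ k y := by
    intro k
    simp only [x]
    rw [map_smul, map_sub, map_mul, hΘu]
    simp only [z, if_true, Unitary.coe_neg, OneMemClass.coe_one, neg_mul, one_mul, sub_neg_eq_add]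
    rw [← two_smul ℂ, smul_smul]
    norm_num
  have hx2 : ∀ k i, i ≠ k → Θ k (x i) = 0 := by
    intro k i hik
    simp only [x]
    rw [map_smul, map_sub, map_mul, hΘu]
    simp [z, hik]
  have hx3 : ∀ (n m : ℕ) (α : A →⋆ₐ[ℂ] Matrix (Fin n) (Fin n) ℂ)
      (β : A →⋆ₐ[ℂ] Matrix (Fin m) (Fin m) ℂ) (k : ℕ), opn (kr α β (x k)) ≤ r := by
    intro n m α β k
    refine (semi_half_le (kr_semi α β) (hu k) y).trans ?_
    have := hfin n m (umap α (ι.comp jj)) (umap β (ι.comp jj))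
    simp only [y, map_sum, map_smul, kr_tmul]
    exact this
  let μ : ∀ S : Set ℕ, ((Σ n : ℕ × ℕ, (A →⋆ₐ[ℂ] Matrix (Fin n.1) (Fin n.1) ℂ) ×
      (A →⋆ₐ[ℂ] Matrix (Fin n.2) (Fin n.2) ℂ)) ⊕ S) → A ⊗[ℂ] A → ℝ := fun S =>
    Sum.elim (fun i w => opn (kr i.2.1 i.2.2 w)) fun k w => ‖Θ k w‖
  have hμ : ∀ S i, IsCStarSemi (μ S i) := by
    rintro S (i | k)
    · exact kr_semi _ _
    · exact semi_hom (Θ k) (lift_star _ _ _)
  have hb : ∀ S w, BddAbove (Set.range fun i => μ S i w) := by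
    intro S w
    obtain ⟨K, hK⟩ := bound h2 w
    exact ⟨K, Set.forall_mem_range.2 fun i => hK _ (hμ S i)⟩
  have hν : ∀ S, IsCStarNorm fun w => ⨆ i, μ S i w := by
    intro S
    refine (semi_iSup (μ S) (hμ S) (hb S)).isCStarNorm fun w hw => ?_
    refine kr_faithful (h3 A ι hι) w fun n m α β => le_antisymm ?_ (norm_nonneg _)
    exact (le_ciSup (hb S w) (Sum.inl ⟨(n, m), α, β⟩)).trans hw.le
  have hS : ∀ (S : Set ℕ) (k : ℕ), r < ⨆ i, μ S i (x k) ↔ k ∈ S := by
    intro S k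
    constructor
    · intro h
      by_contra hk
      refine absurd h (not_lt.2 (Real.iSup_le ?_ hr0))
      rintro (i | i)
      · exact hx3 _ _ _ _ _
      · show ‖Θ i (x k)‖ ≤ r
        rw [hx2 i k fun e => hk (e ▸ i.2), norm_zero]
        exact hr0
    · intro hk
      refine lt_of_lt_of_le ?_ (le_ciSup (hb S (x k)) (Sum.inr ⟨k, hk⟩))
      show r < ‖Θ k (x k)‖
      rw [hx1]
      exact hy k
  rw [← Cardinal.mk_set_nat]
  refine Cardinal.mk_le_of_injective (f := fun S => ⟨_, hν S⟩) fun S T h => Set.ext fun k => ?_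
  have e : ⨆ i, μ S i (x k) = ⨆ i, μ T i (x k) := congrFun (congrArg Subtype.val h) (x k)
  rw [← hS, ← hS, e]

end Pool.Agent.P.MP_7f9919_an.C12
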