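import Pool.Agent.P.MP_7f9919_an.C12.St

/-!
Finite dimensional approximation of unitary representations of the free group.
-/

set_option autoImplicit false

namespace Pool.Agent.P.MP_7f9919_an.C12

namespace Rfd

/-- Euclidean space of dimension `n`. -/
abbrev E (n : ℕ) : Type := EuclideanSpace ℂ (Fin n)

/-- A matrix as an operator on Euclidean space. -/
noncomputable abbrev op {n : ℕ} (M : Matrix (Fin n) (Fin n) ℂ) : E n →L[ℂ] E n :=
  Matrix.toEuclideanCLM (n := Fin n) (𝕜 := ℂ) M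

theorem op_mul {n : ℕ} (A B : Matrix (Fin n) (Fin n) ℂ) (x : E n) :
    op (A * B) x = op A (op B x) := by
  unfold op
  rw [map_mul]
  rfl

theorem op_sum {n : ℕ} {ι : Type} (s : Finset ι) (c : ι → ℂ) (A : ι → Matrix (Fin n) (Fin n) ℂ)
    (x : E n) : op (∑ i ∈ s, c i • A i) x = ∑ i ∈ s, c i • op (A i) x := by
  unfold op
  simp only [map_sum, map_smul, sum_apply, smul_apply]

variable {H : Type} [NormedAddCommGroup H] [InnerProductSpace ℂ H] [CompleteSpace H]

theorem ext_unit {n : ℕ} (J : E n →ₗᵢ[ℂ] H) (U : unitary (H →L[ℂ] H)) :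
    ∃ M : Matrix.unitaryGroup (Fin n) ℂ, ∀ x y : E n,
      (U : H →L[ℂ] H) (J x) = J y → op (M : Matrix (Fin n) (Fin n) ℂ) x = y := by
  classical
  let S : Submodule ℂ (E n) :=
    (LinearMap.range J.toLinearMap).comap
      (((U : H →L[ℂ] H) : H →ₗ[ℂ] H).comp J.toLinearMap)
  let UJ : E n →ₗᵢ[ℂ] H :=
    (Unitary.linearIsometryEquiv U).toLinearIsometry.comp J
  have hUJ : ∀ x, UJ x = (U : H →L[ℂ] H) (J x) := fun x => rfl
  let L0 : S →ₗ[ℂ] LinearMap.range J.toLinearMap :=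
    (UJ.toLinearMap.comp S.subtype).codRestrict _ (fun x => x.2)
  let L1 : S →ₗᵢ[ℂ] LinearMap.range J.toLinearMap :=
    { toLinearMap := L0
      norm_map' := fun x => by
        have : ‖L0 x‖ = ‖UJ (x : E n)‖ := rfl
        rw [this, UJ.norm_map]
        rfl }
  let L : S →ₗᵢ[ℂ] E n := J.equivRange.symm.toLinearIsometry.comp L1
  have hL : ∀ x : S, J (L x) = (U : H →L[ℂ] H) (J x) := fun x => by
    have h1 : J.equivRange (L x) = L1 x := J.equivRange.apply_symm_apply _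
    have h2 : ((J.equivRange (L x) : LinearMap.range J.toLinearMap) : H) = J (L x) := rfl
    rw [← h2, h1]
    rfl
  let V : E n ≃ₗᵢ[ℂ] E n := L.extend.toLinearIsometryEquiv rfl
  let W : unitary (E n →L[ℂ] E n) := Unitary.linearIsometryEquiv.symm V
  let φ := (Matrix.toEuclideanCLM (n := Fin n) (𝕜 := ℂ)).symm
  refine ⟨⟨φ (W : E n →L[ℂ] E n), Unitary.map_mem φ W.2⟩, fun x y h => ?_⟩
  have hx : x ∈ S := ⟨y, h.symm⟩
  have h1 : op (φ (W : E n →L[ℂ] E n)) = (W : E n →L[ℂ] E n) :=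
    (Matrix.toEuclideanCLM (n := Fin n) (𝕜 := ℂ)).apply_symm_apply _
  change op (φ (W : E n →L[ℂ] E n)) x = y
  rw [h1]
  have h2 : (W : E n →L[ℂ] E n) x = L.extend x := rfl
  rw [h2]
  have h3 := L.extend_apply ⟨x, hx⟩
  apply J.injective
  rw [← h]
  exact (congrArg J h3).trans (hL ⟨x, hx⟩)

theorem word (π : FF →* unitary (H →L[ℂ] H)) (g : FF) : ∀ ξ : H, ∃ T : Set H, T.Finite ∧
    ∀ (n : ℕ) (J : E n →ₗᵢ[ℂ] H) (u : FF →* Matrix.unitaryGroup (Fin n) ℂ),
      (∀ (a : ℕ) (x y : E n), (π (FreeGroup.of a) : H →L[ℂ] H) (J x) = J y →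
        op (u (FreeGroup.of a) : Matrix (Fin n) (Fin n) ℂ) x = y) →
      T ⊆ Set.range J → ∀ x, J x = ξ →
        J (op (u g : Matrix (Fin n) (Fin n) ℂ) x) = (π g : H →L[ℂ] H) ξ := by
  induction g using FreeGroup.induction_on with
  | C1 =>
    intro ξ
    refine ⟨∅, Set.finite_empty, fun n J u _ _ x hx => ?_⟩
    simp [hx]
  | of a =>
    intro ξ
    refine ⟨{(π (FreeGroup.of a) : H →L[ℂ] H) ξ}, Set.finite_singleton _,
      fun n J u hu hT x hx => ?_⟩
    obtain ⟨y, hy⟩ := hT (Set.mem_singleton _)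
    rw [hu a x y (by rw [hx, hy]), hy]
  | inv_of a _ =>
    intro ξ
    refine ⟨{(π (FreeGroup.of a)⁻¹ : H →L[ℂ] H) ξ}, Set.finite_singleton _,
      fun n J u hu hT x hx => ?_⟩
    obtain ⟨y, hy⟩ := hT (Set.mem_singleton _)
    have h1 : (π (FreeGroup.of a) : H →L[ℂ] H) (J y) = J x := by
      rw [hy, hx, ← mul_apply_eq_comp, ← Submonoid.coe_mul, ← map_mul]
      simp
    have h2 := hu a y x h1
    rw [← hy, ← h2, ← op_mul, ← Submonoid.coe_mul, ← map_mul]
    simp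
  | mul g h ihg ihh =>
    intro ξ
    obtain ⟨T1, f1, h1⟩ := ihh ξ
    obtain ⟨T2, f2, h2⟩ := ihg ((π h : H →L[ℂ] H) ξ)
    refine ⟨T1 ∪ T2, f1.union f2, fun n J u hu hT x hx => ?_⟩
    have k1 := h1 n J u hu (Set.subset_union_left.trans hT) x hx
    have k2 := h2 n J u hu (Set.subset_union_right.trans hT) _ k1
    rw [map_mul, map_mul, Submonoid.coe_mul, Submonoid.coe_mul, op_mul, k2]
    rfl

omit [CompleteSpace H] in
theorem exists_embed (T : Set H) (hT : T.Finite) :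
    ∃ (n : ℕ) (J : E n →ₗᵢ[ℂ] H), T ⊆ Set.range J := by
  let K : Submodule ℂ H := Submodule.span ℂ T
  have : FiniteDimensional ℂ K := FiniteDimensional.span_of_finite ℂ hT
  refine ⟨Module.finrank ℂ K,
    K.subtypeₗᵢ.comp (stdOrthonormalBasis ℂ K).repr.symm.toLinearIsometry, fun t ht => ?_⟩
  refine ⟨(stdOrthonormalBasis ℂ K).repr ⟨t, Submodule.subset_span ht⟩, ?_⟩
  simp

end Rfd

open Rfd in
theorem rfd : S_rfd := by
  intro H _ _ _ π c r hr
  classical
  rcases lt_or_ge r 0 with h0 | h0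
  · exact ⟨0, 1, h0.trans_le (norm_nonneg _)⟩
  obtain ⟨ξ, hξ⟩ : ∃ ξ : H,
      r * ‖ξ‖ < ‖(∑ g ∈ c.support, c g • (π g : H →L[ℂ] H)) ξ‖ := by
    by_contra hc
    push Not at hc
    exact absurd (ContinuousLinearMap.opNorm_le_bound _ h0 hc) (not_le.2 hr)
  choose T hTf hT using fun g => word π g ξ
  obtain ⟨n, J, hJ⟩ := exists_embed ({ξ} ∪ ⋃ g ∈ c.support, T g)
    ((Set.finite_singleton ξ).union (c.support.finite_toSet.biUnion fun g _ => hTf g))
  choose M hM using fun a : ℕ => ext_unit J (π (FreeGroup.of a))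
  obtain ⟨x, hx⟩ := hJ (Set.mem_union_left _ (Set.mem_singleton ξ))
  refine ⟨n, FreeGroup.lift M, ?_⟩
  have key : ∀ g ∈ c.support,
      J (op (FreeGroup.lift M g : Matrix (Fin n) (Fin n) ℂ) x) = (π g : H →L[ℂ] H) ξ := by
    intro g hg
    refine hT g n J (FreeGroup.lift M) (fun a x y h => ?_) ?_ x hx
    · rw [FreeGroup.lift_apply_of]
      exact hM a x y h
    · refine Set.Subset.trans ?_ hJ
      exact (Set.subset_biUnion_of_mem (u := T) (Finset.mem_coe.2 hg)).trans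
        Set.subset_union_right
  have h1 : J (op (∑ g ∈ c.support,
      c g • (FreeGroup.lift M g : Matrix (Fin n) (Fin n) ℂ)) x) =
      (∑ g ∈ c.support, c g • (π g : H →L[ℂ] H)) ξ := by
    rw [op_sum, sum_apply, map_sum]
    refine Finset.sum_congr rfl fun g hg => ?_
    rw [map_smul, smul_apply, key g hg]
  rw [← h1, J.norm_map, ← hx, J.norm_map] at hξ
  have h2 := (op (∑ g ∈ c.support,
      c g • (FreeGroup.lift M g : Matrix (Fin n) (Fin n) ℂ))).le_opNorm x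
  exact lt_of_mul_lt_mul_right (hξ.trans_le h2) (norm_nonneg x)

end Pool.Agent.P.MP_7f9919_an.C12
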