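import Pool.Agent.P.MP_7f9919_an.C12.St

/-!
C*-seminorms on algebraic tensor products are cross subnorms; there are at most continuum many
C*-norms in the separable case.
-/

set_option autoImplicit false

namespace Pool.Agent.P.MP_7f9919_an.C12

open scoped TensorProduct

namespace Upper

section Alg

variable {C : Type} [Ring C] [StarRing C] [Algebra ℂ C] {ν : C → ℝ}

theorem zero (h : IsCStarSemi ν) : ν 0 = 0 := by
  simpa using h.smul 0 0

theorem unit_le (h : IsCStarSemi ν) {u : C} (hu : star u * u = 1) : ν u ≤ 1 := by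
  have h1 := h.cstar 1
  rw [star_one, one_mul] at h1
  have h2 := h.cstar u
  rw [hu] at h2
  have h3 : ν 1 ≤ 1 := by nlinarith [h.nonneg 1]
  nlinarith [h.nonneg u]

theorem sum_le (h : IsCStarSemi ν) {ι : Type} (s : Finset ι) (f : ι → C) :
    ν (∑ i ∈ s, f i) ≤ ∑ i ∈ s, ν (f i) :=
  Finset.le_sum_of_subadditive ν (zero h).le h.add_le s f

theorem comp {D : Type} [Ring D] [StarRing D] [Algebra ℂ D] (h : IsCStarSemi ν) (θ : D →ₐ[ℂ] C)
    (hθ : ∀ x, θ (star x) = star (θ x)) : IsCStarSemi fun x => ν (θ x) where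
  nonneg _ := h.nonneg _
  add_le x y := by simpa only [map_add] using h.add_le _ _
  smul c x := by simpa only [map_smul] using h.smul _ _
  mul_le x y := by simpa only [map_mul] using h.mul_le _ _
  star_eq x := by simpa only [hθ] using h.star_eq _
  cstar x := by simpa only [map_mul, hθ] using h.cstar _

theorem le_add_sub (h : IsCStarSemi ν) (x y : C) : ν x ≤ ν y + ν (x - y) := by
  simpa using h.add_le y (x - y)

theorem sub_rev (h : IsCStarSemi ν) (x y : C) : ν (x - y) = ν (y - x) := by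
  simpa using h.smul (-1) (y - x)

end Alg

variable {A B : Type} [CStarAlgebra A] [CStarAlgebra B]

theorem le_two {μ : A → ℝ} (h : IsCStarSemi μ) (x : A) : μ x ≤ 2 * ‖x‖ := by
  obtain ⟨u, c, e, hc⟩ := CStarAlgebra.exists_sum_four_unitary x
  have h1 : ∀ i, μ (c i • (u i : A)) ≤ ‖x‖ / 2 := fun i => by
    rw [h.smul]
    exact (mul_le_of_le_one_right (norm_nonneg _) (unit_le h (u i).2.1)).trans (hc i)
  have h2 := (sum_le h Finset.univ fun i => c i • (u i : A)).trans
    (Finset.sum_le_sum fun i _ => h1 i)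
  rw [← e] at h2
  simp only [Finset.sum_const, Finset.card_univ, Fintype.card_fin, nsmul_eq_mul] at h2
  push_cast at h2
  linarith

theorem pow_le {μ : A → ℝ} (h : IsCStarSemi μ) (k : ℕ) :
    ∀ x : A, μ x ^ 2 ^ k ≤ 2 * ‖x‖ ^ 2 ^ k := by
  induction k with
  | zero => simpa using le_two h
  | succ k ih =>
    intro x
    have := ih (star x * x)
    rwa [h.cstar, CStarRing.norm_star_mul_self, ← sq, ← pow_mul, ← pow_mul, ← pow_succ'] at this

/-- a C*-seminorm on a C*-algebra is bounded by the norm -/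
theorem le_norm {μ : A → ℝ} (h : IsCStarSemi μ) (x : A) : μ x ≤ ‖x‖ := by
  by_contra hc
  rw [not_le] at hc
  rcases (norm_nonneg x).eq_or_lt with h0 | h0
  · have := le_two h x
    linarith
  have h1 : 1 < μ x / ‖x‖ := (one_lt_div h0).2 hc
  obtain ⟨k, hk⟩ := pow_unbounded_of_one_lt 2 h1
  have h2 := hk.trans_le (pow_le_pow_right₀ h1.le (Nat.lt_two_pow_self (n := k)).le)
  rw [div_pow, lt_div_iff₀ (pow_pos h0 _)] at h2
  exact absurd (pow_le h k x) (not_le.2 h2)

theorem cross {ν : A ⊗[ℂ] B → ℝ} (h : IsCStarSemi ν) (a : A) (b : B) :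
    ν (a ⊗ₜ b) ≤ ‖a‖ * ‖b‖ := by
  have h1 : ν (a ⊗ₜ 1) ≤ ‖a‖ := le_norm (comp h Algebra.TensorProduct.includeLeft fun x => by
    simp) a
  have h2 : ν (1 ⊗ₜ b) ≤ ‖b‖ := le_norm (comp h Algebra.TensorProduct.includeRight fun x => by
    simp) b
  have h3 := h.mul_le (a ⊗ₜ 1) (1 ⊗ₜ b)
  rw [Algebra.TensorProduct.tmul_mul_tmul, mul_one, one_mul] at h3
  exact h3.trans (mul_le_mul h1 h2 (h.nonneg _) (norm_nonneg _))

/-- sums of elementary tensors of members of a sequence -/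
noncomputable def sm (d : ℕ → A) (l : List (ℕ × ℕ)) : A ⊗[ℂ] A :=
  (l.map fun p => d p.1 ⊗ₜ[ℂ] d p.2).sum

theorem approx {d : ℕ → A} (hd : DenseRange d) {ν : A ⊗[ℂ] A → ℝ} (h : IsCStarSemi ν)
    (x : A ⊗[ℂ] A) : ∀ ε : ℝ, 0 < ε → ∃ l, ν (x - sm d l) < ε := by
  induction x using TensorProduct.induction_on with
  | zero => exact fun ε hε => ⟨[], by simpa [sm, zero h] using hε⟩
  | tmul a b =>
    intro ε hε
    have hc : Continuous fun p : A × A => ‖a - p.1‖ * ‖b‖ + ‖p.1‖ * ‖b - p.2‖ := by fun_prop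
    obtain ⟨p, hp⟩ := (hd.prodMap hd).exists_mem_open (isOpen_lt hc continuous_const (g := fun _ => ε))
      ⟨(a, b), by simpa using hε⟩
    refine ⟨[p], lt_of_le_of_lt ?_ hp⟩
    have e : a ⊗ₜ[ℂ] b - sm d [p] = (a - d p.1) ⊗ₜ[ℂ] b + d p.1 ⊗ₜ[ℂ] (b - d p.2) := by
      simp [sm, TensorProduct.sub_tmul, TensorProduct.tmul_sub]
    rw [e]
    exact (h.add_le _ _).trans (add_le_add (cross h _ _) (cross h _ _))
  | add x y hx hy =>
    intro ε hε
    obtain ⟨l1, h1⟩ := hx _ (half_pos hε)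
    obtain ⟨l2, h2⟩ := hy _ (half_pos hε)
    refine ⟨l1 ++ l2, ?_⟩
    have e : x + y - sm d (l1 ++ l2) = (x - sm d l1) + (y - sm d l2) := by
      simp only [sm, List.map_append, List.sum_append]
      abel
    rw [e]
    linarith [h.add_le (x - sm d l1) (y - sm d l2)]

theorem le_of_sm {d : ℕ → A} (hd : DenseRange d) {ν μ : A ⊗[ℂ] A → ℝ} (h : IsCStarSemi ν)
    (k : IsCStarSemi μ) (e : ∀ l, ν (sm d l) = μ (sm d l)) (x : A ⊗[ℂ] A) : ν x ≤ μ x := by
  refine le_of_forall_pos_le_add fun ε hε => ?_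
  obtain ⟨l, hl⟩ := approx hd (h.max k) x _ (half_pos hε)
  obtain ⟨h1, h2⟩ := max_lt_iff.1 hl
  have h3 := le_add_sub h x (sm d l)
  have h4 := le_add_sub k (sm d l) x
  rw [sub_rev k] at h4
  linarith [e l]

end Upper

theorem cross : S_cross := fun _ _ _ _ _ h a b => Upper.cross h a b

theorem upper : S_upper := by
  intro G _ _ A _ ι h
  have hs : TopologicalSpace.SeparableSpace A := by
    rw [← TopologicalSpace.isSeparable_univ_iff, ← h.1.closure_eq]
    exact (Set.countable_range _).isSeparable.span.closure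
  have hd := TopologicalSpace.denseRange_denseSeq A
  have semi : ∀ ν : {ν : A ⊗[ℂ] A → ℝ // IsCStarNorm ν}, IsCStarSemi ν.1 := fun ν =>
    ⟨ν.2.1, ν.2.2.2.1, ν.2.2.2.2.1, ν.2.2.2.2.2.1, ν.2.2.2.2.2.2.1, ν.2.2.2.2.2.2.2⟩
  have hi : Function.Injective fun (ν : {ν : A ⊗[ℂ] A → ℝ // IsCStarNorm ν})
      (l : List (ℕ × ℕ)) => ν.1 (Upper.sm (TopologicalSpace.denseSeq A) l) := fun ν μ e =>
    Subtype.ext (funext fun x => le_antisymm
      (Upper.le_of_sm hd (semi ν) (semi μ) (congrFun e) x)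
      (Upper.le_of_sm hd (semi μ) (semi ν) (congrFun e.symm) x))
  refine (Cardinal.mk_le_of_injective hi).trans_eq ?_
  simp [Cardinal.mk_real]

end Pool.Agent.P.MP_7f9919_an.C12
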