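import Pool.Agent.P.MP_7f9919_an.C12.Exist
import Pool.Agent.P.MP_7f9919_an.C12.Ext
import Pool.Agent.P.MP_7f9919_an.C12.K1
import Pool.Agent.P.MP_7f9919_an.C12.K3
import Pool.Agent.P.MP_7f9919_an.C12.Many
import Pool.Agent.P.MP_7f9919_an.C12.Rfd
import Pool.Agent.P.MP_7f9919_an.C12.Upper
import Pool.Agent.P.MP_7f9919_an.NH.Final

/-!
Pair (b): the number of C*-norms on the tensor square of the full C*-algebra of the free group.
-/

set_option autoImplicit false

namespace Pool.Agent.P.MP_7f9919_an.C12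

open scoped TensorProduct

theorem case_b (A : Type) [CStarAlgebra A] (ι : FreeGroup ℕ →* unitary A)
    (h : IsFullGroupCStar ι) :
    Cardinal.mk {ν : A ⊗[ℂ] A → ℝ // IsCStarNorm ν} = 2 ^ Cardinal.aleph0 :=
  card_b upper (many ext cross (resfin rfd)) (sep_of_NH k1 NH.nh_eps_final) A ι h

end Pool.Agent.P.MP_7f9919_an.C12
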