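import Pool.Agent.P.MP_7f9919_an.Defs

set_option autoImplicit false

namespace Pool.Agent.P.MP_7f9919_an

open scoped TensorProduct

/-- `N(A, B)`: the number of C*-norms on the algebraic tensor product of two complex
*-algebras. -/
noncomputable def numNorms (A B : Type) [Ring A] [StarRing A] [Algebra ℂ A] [StarModule ℂ A]
    [Ring B] [StarRing B] [Algebra ℂ B] [StarModule ℂ B] : Cardinal :=
  Cardinal.mk {ν : A ⊗[ℂ] B → ℝ // IsCStarNorm ν}

/-- `Q` is the Calkin algebra of `H`: the image of `B(H)` under a *-homomorphism whose kernel is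
the ideal of compact operators. -/
def IsCalkin (H : Type) [NormedAddCommGroup H] [InnerProductSpace ℂ H] [CompleteSpace H]
    (Q : Type) [Ring Q] [StarRing Q] [Algebra ℂ Q] : Prop :=
  ∃ q : (H →L[ℂ] H) →⋆ₐ[ℂ] Q, Function.Surjective q ∧ ∀ x, q x = 0 ↔ IsCompactOperator x

/-- `π` is a homomorphism from `G` to the unitary group of the C*-algebra `B`. -/
def IsUnitaryHom {G : Type} [Group G] {B : Type} [CStarAlgebra B] (π : G → B) : Prop :=
  (∀ g, π g ∈ unitary B) ∧ ∀ g h, π (g * h) = π g * π h

/-- The norm of the finite linear combination `∑ c(g) π(g)` in a C*-algebra. -/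
noncomputable def combNorm {G : Type} {B : Type} [CStarAlgebra B] (π : G → B) (c : G →₀ ℂ) : ℝ :=
  ‖∑ g ∈ c.support, c g • π g‖

/-- `A` together with `ι : G → U(A)` is the full group C*-algebra of `G`, that is the completion of
the complex group algebra of `G` in the universal norm: the linear span of `ι(G)` is dense in `A`,
and the norm in `A` of a finite linear combination `∑ c(g) ι(g)` is the supremum of the operator
norms of `∑ c(g) π(g)` over all unitary representations `π` of `G` on complex Hilbert spaces. -/
def IsFullCStar {G : Type} [Group G] {A : Type} [CStarAlgebra A] (ι : G → A) : Prop :=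
  IsUnitaryHom ι ∧ Dense (Submodule.span ℂ (Set.range ι) : Set A) ∧
    ∀ c : G →₀ ℂ, IsLUB
      {r : ℝ | ∃ (H : Type) (_ : NormedAddCommGroup H) (_ : InnerProductSpace ℂ H)
        (_ : CompleteSpace H) (π : G → (H →L[ℂ] H)), IsUnitaryHom π ∧ r = combNorm π c}
      (combNorm ι c)

end Pool.Agent.P.MP_7f9919_an
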