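import Pool.Agent.P.MP_7f9919_an.Instances
import Pool.Agent.P.MP_7f9919_an.C12.Final
import Pool.Agent.P.MP_7f9919_an.C12.Num

/-!
The three pairs, in the form used by the hand-in.
-/

set_option autoImplicit false

namespace Pool.Agent.P.MP_7f9919_an.C12

theorem exists_hom {G : Type} [Group G] {B : Type} [CStarAlgebra B] {π : G → B}
    (h : IsUnitaryHom π) : ∃ π' : G →* unitary B, π = fun g => (π' g : B) :=
  ⟨MonoidHom.mk' (fun g => ⟨π g, h.1 g⟩) fun g g' => Subtype.ext (h.2 g g'), rfl⟩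

theorem isUnitaryHom_coe {G : Type} [Group G] {B : Type} [CStarAlgebra B] (π : G →* unitary B) :
    IsUnitaryHom fun g => (π g : B) :=
  ⟨fun g => (π g).2, fun g g' => congrArg Subtype.val (map_mul π g g')⟩

theorem isFull_iff {G : Type} [Group G] {A : Type} [CStarAlgebra A] (ι : G →* unitary A) :
    IsFullCStar (fun g => (ι g : A)) ↔ IsFullGroupCStar ι := by
  have e : ∀ c : G →₀ ℂ,
      {r : ℝ | ∃ (H : Type) (_ : NormedAddCommGroup H) (_ : InnerProductSpace ℂ H)
        (_ : CompleteSpace H) (π : G → (H →L[ℂ] H)), IsUnitaryHom π ∧ r = combNorm π c} =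
      {r : ℝ | ∃ (H : Type) (_ : NormedAddCommGroup H) (_ : InnerProductSpace ℂ H)
        (_ : CompleteSpace H) (π : G →* unitary (H →L[ℂ] H)),
        r = ‖∑ g ∈ c.support, c g • (π g : H →L[ℂ] H)‖} := by
    intro c
    ext r
    constructor
    · rintro ⟨H, _, _, _, π, h, rfl⟩
      obtain ⟨π', rfl⟩ := exists_hom h
      exact ⟨H, _, _, inferInstance, π', rfl⟩
    · rintro ⟨H, _, _, _, π, rfl⟩
      exact ⟨H, _, _, inferInstance, _, isUnitaryHom_coe π, rfl⟩
  unfold IsFullCStar IsFullGroupCStar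
  simp only [e]
  exact ⟨fun h => h.2, fun h => ⟨isUnitaryHom_coe ι, h⟩⟩

theorem exists_full : ∃ (A : Type) (_ : CStarAlgebra A) (ι : FreeGroup ℕ → A), IsFullCStar ι := by
  obtain ⟨A, _, ι, h⟩ := exist (FreeGroup ℕ)
  exact ⟨A, _, _, (isFull_iff ι).2 h⟩

theorem num_b (A : Type) [CStarAlgebra A] (ι : FreeGroup ℕ → A) (h : IsFullCStar ι) :
    numNorms A A = 2 ^ Cardinal.aleph0 := by
  obtain ⟨ι', rfl⟩ := exists_hom h.1
  exact case_b A ι' ((isFull_iff ι').1 h)

variable (H : Type) [NormedAddCommGroup H] [InnerProductSpace ℂ H] [CompleteSpace H]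

theorem exists_calkin : ∃ (Q : Type) (_ : Ring Q) (_ : StarRing Q) (_ : Algebra ℂ Q)
    (_ : StarModule ℂ Q), IsCalkin H Q :=
  ⟨Calkin H, inferInstance, inferInstance, inferInstance, inferInstance,
    { calkinMk H with map_star' := fun x => (star_calkinMk H x).symm },
    calkinMk_surjective H, calkinMk_eq_zero H⟩

theorem num_c [TopologicalSpace.SeparableSpace H] (hH : ¬ FiniteDimensional ℂ H) (Q : Type)
    [Ring Q] [StarRing Q] [Algebra ℂ Q] [StarModule ℂ Q] (hQ : IsCalkin H Q) :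
    numNorms (H →L[ℂ] H) Q = 2 ^ (2 ^ Cardinal.aleph0 : Cardinal) := by
  obtain ⟨q, hq, hk⟩ := hQ
  have := nontrivial_bounded H hH
  have : Nontrivial Q := ⟨q 1, 0, fun h => not_compact_one H hH ((hk 1).1 h)⟩
  rw [Cardinal.two_power_aleph0]
  refine card_norms_quotients hH (StarAlgHom.id ℂ _) Function.surjective_id
    isClosed_singleton q hq ?_
  have e : {x | q x = 0} = {x : H →L[ℂ] H | IsCompactOperator x} := Set.ext hk
  rw [e]
  exact isClosed_setOfPred_isCompactOperator

end Pool.Agent.P.MP_7f9919_an.C12
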