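import Mathlib

set_option autoImplicit false

namespace Pool.Agent.P.MP_7f9919_an

/-- `A` together with `ι : G → U(A)` is the full group C*-algebra of `G`, that is the completion of
the complex group algebra of `G` in the universal norm: the linear span of `ι(G)` is dense in `A`,
and the norm in `A` of a finite linear combination `∑ c(g) ι(g)` is the supremum of the operator
norms of `∑ c(g) π(g)` over all unitary representations `π` of `G` on complex Hilbert spaces. -/
def IsFullGroupCStar {G : Type} [Group G] {A : Type} [CStarAlgebra A] (ι : G →* unitary A) :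
    Prop :=
  Dense (Submodule.span ℂ (Set.range fun g => (ι g : A)) : Set A) ∧
    ∀ c : G →₀ ℂ, IsLUB
      {r : ℝ | ∃ (H : Type) (_ : NormedAddCommGroup H) (_ : InnerProductSpace ℂ H)
        (_ : CompleteSpace H) (π : G →* unitary (H →L[ℂ] H)),
        r = ‖∑ g ∈ c.support, c g • (π g : H →L[ℂ] H)‖}
      ‖∑ g ∈ c.support, c g • (ι g : A)‖

end Pool.Agent.P.MP_7f9919_an
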