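import Pool.Agent.P.MP_7f9919_an.C12.St

/-!
Existence of the full group C*-algebra.
-/

set_option autoImplicit false

namespace Pool.Agent.P.MP_7f9919_an.C12

open scoped ENNReal

noncomputable section

namespace Exist

/-- A unitary representation on a nonzero Hilbert space. -/
structure Rep (G : Type) [Group G] : Type 1 where
  H : Type
  [i1 : NormedAddCommGroup H]
  [i2 : InnerProductSpace ℂ H]
  [i3 : CompleteSpace H]
  [i4 : Nontrivial H]
  π : G →* unitary (H →L[ℂ] H)

attribute [instance] Rep.i1 Rep.i2 Rep.i3 Rep.i4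

variable {G : Type} [Group G]

/-- The norms of `c` in all representations. -/
def T (c : G →₀ ℂ) : Set ℝ :=
  {r : ℝ | ∃ (H : Type) (_ : NormedAddCommGroup H) (_ : InnerProductSpace ℂ H)
    (_ : CompleteSpace H) (π : G →* unitary (H →L[ℂ] H)),
    r = ‖∑ g ∈ c.support, c g • (π g : H →L[ℂ] H)‖}

/-- The norm of `c` in a representation. -/
def Rep.val (ρ : Rep G) (c : G →₀ ℂ) : ℝ := ‖∑ g ∈ c.support, c g • (ρ.π g : ρ.H →L[ℂ] ρ.H)‖

theorem val_mem (ρ : Rep G) (c : G →₀ ℂ) : ρ.val c ∈ T c := ⟨ρ.H, _, _, inferInstance, ρ.π, rfl⟩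

theorem bdd (c : G →₀ ℂ) : BddAbove (T c) := by
  refine ⟨∑ g ∈ c.support, ‖c g‖, ?_⟩
  rintro _ ⟨H, _, _, _, π, rfl⟩
  refine norm_sum_le_of_le _ fun g _ => ?_
  rw [norm_smul, ← mul_one (π g : H →L[ℂ] H), CStarRing.norm_coe_unitary_mul]
  exact mul_le_of_le_one_right (norm_nonneg _) ContinuousLinearMap.norm_id_le

theorem ex_rep {c : G →₀ ℂ} {r : ℝ} (h : r ∈ T c) : ∃ ρ : Rep G, r ≤ ρ.val c := by
  obtain ⟨H, _, _, _, π, rfl⟩ := h
  rcases subsingleton_or_nontrivial H with h | h
  · refine ⟨⟨ℂ, 1⟩, ?_⟩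
    rw [Subsingleton.elim (∑ g ∈ c.support, c g • (π g : H →L[ℂ] H)) 0, norm_zero]
    exact norm_nonneg _
  · exact ⟨⟨H, π⟩, le_rfl⟩

theorem ex_near (i : (G →₀ ℂ) × ℕ) :
    ∃ ρ : Rep G, sSup (T i.1) - 1 / ((i.2 : ℝ) + 1) < ρ.val i.1 := by
  obtain ⟨r, h1, h2⟩ := exists_lt_of_lt_csSup ⟨_, val_mem ⟨ℂ, 1⟩ i.1⟩
    (sub_lt_self (sSup (T i.1)) (Nat.one_div_pos_of_nat (n := i.2)))
  obtain ⟨ρ, h⟩ := ex_rep h1
  exact ⟨ρ, h2.trans_le h⟩

/-- The chosen family of representations. -/
def R (i : (G →₀ ℂ) × ℕ) : Rep G := (ex_near i).choose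

/-- The product of the operator algebras. -/
abbrev B (G : Type) [Group G] : Type :=
  lp (fun i : (G →₀ ℂ) × ℕ => (R i).H →L[ℂ] (R i).H) ∞

instance : CStarAlgebra (B G) where
  toNormedRing := lp.inftyNormedRing
  toStarRing := lp.inftyStarRing
  toCompleteSpace := lp.completeSpace
  toCStarRing := lp.inftyCStarRing
  toNormedAlgebra := lp.inftyNormedAlgebra
  toStarModule := inferInstance

/-- The diagonal representation. -/
def U (g : G) : B G := ⟨fun i => (R i).π g, memℓp_infty ⟨1, by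
  rintro _ ⟨i, rfl⟩
  exact (CStarRing.norm_coe_unitary _).le⟩⟩

theorem U_one : U (1 : G) = 1 := lp.ext (funext fun i => congrArg Subtype.val (R i).π.map_one)

theorem U_mul (g h : G) : U (g * h) = U g * U h :=
  lp.ext (funext fun i => congrArg Subtype.val ((R i).π.map_mul g h))

theorem U_star (g : G) : star (U g) = U g⁻¹ :=
  lp.ext (funext fun i => (congrArg Subtype.val ((R i).π.map_inv g)).symm)

theorem sum_apply (c : G →₀ ℂ) (i : (G →₀ ℂ) × ℕ) :
    ‖(∑ g ∈ c.support, c g • U g) i‖ = (R i).val c := by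
  rw [lp.coeFn_sum, Finset.sum_apply]
  rfl

theorem norm_U (c : G →₀ ℂ) : ‖∑ g ∈ c.support, c g • U g‖ = sSup (T c) := by
  have h1 : ∀ ρ : Rep G, ρ.val c ≤ sSup (T c) := fun ρ => le_csSup (bdd c) (val_mem ρ c)
  refine le_antisymm (lp.norm_le_of_forall_le ((norm_nonneg _).trans (h1 ⟨ℂ, 1⟩)) fun i =>
    (sum_apply c i).trans_le (h1 _)) (le_of_forall_pos_le_add fun ε hε => ?_)
  obtain ⟨k, hk⟩ := exists_nat_one_div_lt hε
  have h2 := (ex_near (c, k)).choose_spec
  have h3 := lp.norm_apply_le_norm ENNReal.top_ne_zero (∑ g ∈ c.support, c g • U g) (c, k)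
  rw [sum_apply] at h3
  change sSup (T c) - 1 / ((k : ℝ) + 1) < (R (c, k)).val c at h2
  linarith

/-- The span of the diagonal representation. -/
def Sp (G : Type) [Group G] : StarSubalgebra ℂ (B G) where
  toSubalgebra := (Submodule.span ℂ (Set.range (U (G := G)))).toSubalgebra
    (Submodule.subset_span ⟨1, U_one⟩) fun x y hx hy => by
      have := Submodule.mul_mem_mul hx hy
      rw [Submodule.span_mul_span] at this
      refine Submodule.span_mono ?_ this
      rintro _ ⟨_, ⟨g, rfl⟩, _, ⟨h, rfl⟩, rfl⟩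
      exact ⟨g * h, U_mul g h⟩
  star_mem' := fun {x} hx => by
    change star x ∈ Submodule.span ℂ (Set.range (U (G := G)))
    induction hx using Submodule.span_induction with
    | mem x h =>
      obtain ⟨g, rfl⟩ := h
      exact Submodule.subset_span ⟨g⁻¹, (U_star g).symm⟩
    | zero => simp
    | add x y _ _ h1 h2 => simpa using add_mem h1 h2
    | smul a x _ h => simpa using Submodule.smul_mem _ _ h

/-- The full group C*-algebra. -/
abbrev A (G : Type) [Group G] : Type := (Sp G).topologicalClosure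

instance : IsClosed ((Sp G).topologicalClosure : Set (B G)) :=
  StarSubalgebra.isClosed_topologicalClosure _

/-- The generators. -/
def V (g : G) : A G :=
  ⟨U g, StarSubalgebra.le_topologicalClosure _ (Submodule.subset_span ⟨g, rfl⟩)⟩

/-- The universal representation. -/
def ι : G →* unitary (A G) where
  toFun g := ⟨V g, by
    constructor <;> refine Subtype.ext ?_
    · change star (U g) * U g = 1
      rw [U_star, ← U_mul, inv_mul_cancel, U_one]
    · change U g * star (U g) = 1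
      rw [U_star, ← U_mul, mul_inv_cancel, U_one]⟩
  map_one' := Subtype.ext (Subtype.ext U_one)
  map_mul' g h := Subtype.ext (Subtype.ext (U_mul g h))

end Exist

open Exist in
theorem exist : S_exist := by
  intro G _
  refine ⟨A G, inferInstance, ι, Subtype.dense_iff.2 (closure_mono fun x hx => ?_), fun c => ?_⟩
  · change x ∈ Submodule.span ℂ (Set.range (U (G := G))) at hx
    induction hx using Submodule.span_induction with
    | mem x h =>
      obtain ⟨g, rfl⟩ := h
      exact ⟨V g, Submodule.subset_span ⟨g, rfl⟩, rfl⟩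
    | zero => exact ⟨0, zero_mem _, rfl⟩
    | add x y _ _ h1 h2 =>
      obtain ⟨x, h1, rfl⟩ := h1
      obtain ⟨y, h2, rfl⟩ := h2
      exact ⟨x + y, add_mem h1 h2, rfl⟩
    | smul a x _ h =>
      obtain ⟨x, h, rfl⟩ := h
      exact ⟨a • x, Submodule.smul_mem _ _ h, rfl⟩
  · have e : ‖∑ g ∈ c.support, c g • ((ι g : unitary (A G)) : A G)‖ = sSup (T c) := by
      rw [← norm_U]
      change ‖((∑ g ∈ c.support, c g • V g : A G) : B G)‖ = _
      rw [AddSubmonoidClass.coe_finsetSum]
      rfl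
    rw [e]
    exact isLUB_csSup ⟨_, val_mem ⟨ℂ, 1⟩ c⟩ (bdd c)

end

end Pool.Agent.P.MP_7f9919_an.C12
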