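import Pool.Agent.P.MP_7f9919_an.C12.Mat

/-!
From almost invariant vectors to almost invariant subspaces (layer cake argument).
-/

set_option autoImplicit false
set_option linter.unusedSectionVars false

namespace Pool.Agent.P.MP_7f9919_an.C12

open scoped Matrix ComplexConjugate ComplexOrder
open Matrix Finset

/-- Indicator of `s ≤ t`. -/
noncomputable def ind (s t : ℝ) : ℝ := if s ≤ t then 1 else 0

theorem layer {ι : Type} [Fintype ι] (a μ : ι → ℝ) (hμ : ∀ i, 0 ≤ μ i)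
    (h : ∀ s, ∑ i, a i * ind s (μ i) ≤ 0) : ∑ i, a i * μ i ≤ 0 := by
  set B := ∑ i, μ i with hB
  have hB' : ∀ i, μ i ≤ B := fun i => single_le_sum (fun j _ => hμ j) (mem_univ i)
  have hB0 : 0 ≤ B := sum_nonneg fun j _ => hμ j
  have e : ∀ i, (fun s => ind s (μ i)) = Set.indicator {s | s ≤ μ i} fun _ => (1 : ℝ) := by
    intro i
    funext s
    simp [ind, Set.indicator_apply]
  have h1 : ∀ i, ∫ s in (0 : ℝ)..B, ind s (μ i) = μ i := by
    intro i
    rw [e, intervalIntegral.integral_indicator ⟨hμ i, hB' i⟩]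
    simp
  have h2 : ∀ i, IntervalIntegrable (fun s => a i * ind s (μ i)) MeasureTheory.volume 0 B := by
    intro i
    refine IntervalIntegrable.const_mul ?_ _
    refine Antitone.intervalIntegrable fun s t hst => ?_
    unfold ind
    split_ifs with h1 h2
    · exact le_rfl
    · exact absurd (hst.trans h1) h2
    · exact zero_le_one
    · exact le_rfl
  have h3 : ∑ i, a i * μ i = ∫ s in (0 : ℝ)..B, ∑ i, a i * ind s (μ i) := by
    rw [intervalIntegral.integral_finsetSum fun i _ => h2 i]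
    exact sum_congr rfl fun i _ => by rw [intervalIntegral.integral_const_mul, h1]
  rw [h3, ← neg_nonneg, ← intervalIntegral.integral_neg]
  exact intervalIntegral.integral_nonneg hB0 fun s _ => neg_nonneg.2 (h s)

theorem ind_sub (s a b : ℝ) : |ind s a - ind s b| = ind s (max a b) - ind s (min a b) := by
  unfold ind
  by_cases h1 : s ≤ a <;> by_cases h2 : s ≤ b <;> simp [h1, h2]

theorem layer2 {ι : Type} [Fintype ι] (a μ : ι → ℝ) (c : ι → ι → ℝ) (hμ : ∀ i, 0 ≤ μ i)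
    (h : ∑ i, ∑ j, c i j * |μ i - μ j| < ∑ i, a i * μ i) :
    ∃ s, ∑ i, ∑ j, c i j * |ind s (μ i) - ind s (μ j)| < ∑ i, a i * ind s (μ i) := by
  by_contra hcon
  push Not at hcon
  have := layer (ι := ι ⊕ (ι × ι) ⊕ (ι × ι))
    (Sum.elim a (Sum.elim (fun p => -c p.1 p.2) fun p => c p.1 p.2))
    (Sum.elim μ (Sum.elim (fun p => max (μ p.1) (μ p.2)) fun p => min (μ p.1) (μ p.2)))
    (by
      rintro (i | p | p)
      · exact hμ i
      · exact le_max_of_le_left (hμ _)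
      · exact le_min (hμ _) (hμ _))
    (fun s => by
      have h1 := hcon s
      simp only [ind_sub, mul_sub, sum_sub_distrib] at h1
      simp only [Fintype.sum_sum_type, Sum.elim_inl, Sum.elim_inr, Fintype.sum_prod_type, neg_mul,
        sum_neg_distrib]
      linarith)
  simp only [Fintype.sum_sum_type, Sum.elim_inl, Sum.elim_inr, Fintype.sum_prod_type, neg_mul,
    sum_neg_distrib] at this
  have e : ∀ x y : ℝ, |x - y| = max x y - min x y := fun x y => (max_sub_min_eq_abs' x y).symm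
  simp only [e, mul_sub, sum_sub_distrib] at h
  linarith

variable {m n : Type} [Fintype m] [Fintype n] [DecidableEq m] [DecidableEq n]

theorem spread_le {x : Matrix n m ℂ} {d : n → ℝ} (hd : x * xᴴ = diagonal fun i => (d i : ℂ))
    (hd1 : ∑ i, d i = 1) {u : Matrix n n ℂ} (hu : u ∈ Matrix.unitaryGroup n ℂ)
    {v : Matrix m m ℂ} (hv : v ∈ Matrix.unitaryGroup m ℂ) {t : ℝ} (ht : 0 < t) :
    ∑ i, ∑ j, ‖u i j‖ ^ 2 * |d i - d j| ≤ t + hs2 (u * x - x * v) / t := by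
  have hu1 : uᴴ * u = 1 := Matrix.mem_unitaryGroup_iff'.1 hu
  have hu2 : u * uᴴ = 1 := Matrix.mem_unitaryGroup_iff.1 hu
  have hv1 : vᴴ * v = 1 := Matrix.mem_unitaryGroup_iff'.1 hv
  have hv2 : v * vᴴ = 1 := Matrix.mem_unitaryGroup_iff.1 hv
  set y := u * x - x * v with hy
  set y' := v * xᴴ - xᴴ * u with hy'
  have e1 : hs2 y' = hs2 y := by
    have : y = u * y'ᴴ * v := by
      rw [hy, hy', conjTranspose_sub, conjTranspose_mul, conjTranspose_mul,
        conjTranspose_conjTranspose, Matrix.mul_sub, Matrix.sub_mul, ← Matrix.mul_assoc u uᴴ, hu2,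
        Matrix.one_mul, Matrix.mul_assoc, Matrix.mul_assoc, hv1, Matrix.mul_one]
    rw [this, hs2_mul_coiso hv2, hs2_iso_mul hu1, hs2_conjT]
  let σ : n → n → ℝ := fun i j => if d i ≤ d j then 1 else -1
  have hσ : ∀ i j, ‖(σ i j : ℂ)‖ = 1 := fun i j => by
    unfold σ
    split_ifs <;> simp
  have hσ' : ∀ i j, σ i j * (d j - d i) = |d i - d j| := fun i j => by
    unfold σ
    split_ifs with h
    · rw [one_mul, abs_sub_comm, abs_of_nonneg (sub_nonneg.2 h)]
    · rw [abs_of_pos (sub_pos.2 (not_le.1 h))]; ring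
  let T : Matrix n n ℂ := fun i j => (σ i j : ℂ) * u i j
  have hT : ∀ i j, ‖T i j‖ = ‖u i j‖ := fun i j => by
    show ‖(σ i j : ℂ) * u i j‖ = _
    rw [norm_mul, hσ, one_mul]
  have e2 : hs2 (T * x) = 1 := by
    rw [hs2_mul_diag hd, sum_comm, ← hd1]
    refine sum_congr rfl fun j _ => ?_
    simp only [hT]
    rw [← sum_mul, col_unitary hu1, one_mul]
  have e3 : hs2 (xᴴ * T) = 1 := by
    rw [← hs2_conjT, conjTranspose_mul, conjTranspose_conjTranspose, hs2_mul_diag hd, sum_comm,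
      ← hd1]
    refine sum_congr rfl fun j _ => ?_
    have := col_unitary (u := uᴴ) (by rwa [conjTranspose_conjTranspose]) j
    simp only [conjTranspose_apply, norm_star, hT] at this ⊢
    rw [← sum_mul, this, one_mul]
  have e4 : ∑ i, ∑ j, ‖u i j‖ ^ 2 * |d i - d j| =
      (trace ((T * x)ᴴ * y)).re + (trace ((xᴴ * T)ᴴ * y')).re := by
    have a1 : trace ((T * x)ᴴ * y) + trace ((xᴴ * T)ᴴ * y') =
        trace (Tᴴ * (u * (x * xᴴ) - (x * xᴴ) * u)) := by
      rw [conjTranspose_mul, conjTranspose_mul, conjTranspose_conjTranspose, Matrix.mul_assoc,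
        trace_mul_comm, Matrix.mul_assoc, Matrix.mul_assoc, ← trace_add, ← Matrix.mul_add]
      congr 2
      rw [hy, hy', Matrix.sub_mul, Matrix.mul_sub]
      simp only [Matrix.mul_assoc]
      abel
    rw [← Complex.add_re, a1, hd, sum_comm]
    simp only [Matrix.trace, Matrix.diag, Complex.re_sum]
    refine sum_congr rfl fun j _ => ?_
    rw [Matrix.mul_apply, Complex.re_sum]
    refine sum_congr rfl fun i _ => ?_
    rw [conjTranspose_apply, Matrix.sub_apply, mul_diagonal, diagonal_mul, ← hσ']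
    have : star (T i j) * (u i j * (d j : ℂ) - (d i : ℂ) * u i j) =
        ((‖u i j‖ ^ 2 * (σ i j * (d j - d i)) : ℝ) : ℂ) := by
      show star ((σ i j : ℂ) * u i j) * _ = _
      rw [Complex.star_def, map_mul, Complex.conj_ofReal]
      push_cast
      rw [← Complex.conj_mul']
      ring
    rw [this, Complex.ofReal_re]
  have b1 := re_trace_le (T * x) y ht
  have b2 := re_trace_le (xᴴ * T) y' ht
  rw [e2] at b1
  rw [e3, e1] at b2
  rw [e4]
  linarith

/-- Almost invariant subspaces. -/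
def AlmIso (N : Set FF) (w0 : FF) : Prop :=
  ∀ (E W : Finset FF), (∀ w ∈ W, w ∈ N) → ∀ ε : ℝ, 0 < ε →
    ∃ (n d : ℕ) (u : FF →* Matrix.unitaryGroup (Fin n) ℂ) (V : Matrix (Fin n) (Fin d) ℂ),
      0 < d ∧ Vᴴ * V = 1 ∧
      (∀ g ∈ E, hs2 ((1 - V * Vᴴ) * (u g : Matrix (Fin n) (Fin n) ℂ) * V) ≤ ε * d) ∧
      (∀ w ∈ W, hs2 (((u w : Matrix (Fin n) (Fin n) ℂ) - 1) * V) ≤ ε * d) ∧
      1 / 8 * (d : ℝ) ≤ hs2 (((u w0 : Matrix (Fin n) (Fin n) ℂ) - 1) * V)

theorem exists_iso (T : Finset n) : ∃ V : Matrix n (Fin T.card) ℂ, Vᴴ * V = 1 ∧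
    V * Vᴴ = diagonal fun i => (((if i ∈ T then 1 else 0 : ℝ)) : ℂ) := by
  let e : Fin T.card → n := fun k => T.equivFin.symm k
  have he : Function.Injective e := fun a b h => T.equivFin.symm.injective (Subtype.ext h)
  refine ⟨fun i k => if i = e k then 1 else 0, ?_, ?_⟩
  · ext k k'
    simp [Matrix.mul_apply, one_apply, he.eq_iff, eq_comm]
  · ext i j
    rw [Matrix.mul_apply, diagonal_apply]
    simp only [conjTranspose_apply]
    by_cases hi : i ∈ T
    · rw [sum_eq_single (T.equivFin ⟨i, hi⟩)]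
      · simp [e, hi, eq_comm]
      · intro k _ hk
        rw [if_neg, zero_mul]
        rintro rfl
        exact hk (by simp [e])
      · simp
    · rw [sum_eq_zero]
      · simp [hi]
      · intro k _
        rw [if_neg, zero_mul]
        rintro rfl
        exact hi (T.equivFin.symm k).2

theorem almIso_of_almVec {N : Set FF} {w0 : FF} (h : AlmVec N w0) : AlmIso N w0 := by
  intro E W hW ε hε
  set Λ := 4 / ε with hΛ
  have hΛ0 : 0 < Λ := by positivity
  set t := 1 / (8 * Λ * (W.card + 2 * E.card) + 1) with ht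
  have hc : 0 ≤ 8 * Λ * (W.card + 2 * E.card) := by positivity
  have ht0 : 0 < t := by positivity
  have ht1 : t ≤ 1 := by rw [ht, div_le_one (by positivity)]; linarith
  have ht2 : Λ * (W.card + 2 * E.card) * t < 1 / 8 := by
    rw [ht, mul_one_div, div_lt_iff₀ (by positivity)]; linarith
  obtain ⟨n, m, u0, v, x0, hx, hE, hW', h0⟩ := h E W hW (t ^ 2) (by positivity)
  have hP : (x0 * x0ᴴ).PosSemidef := posSemidef_self_mul_conjTranspose x0
  have hH := hP.isHermitian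
  set Q := hH.eigenvectorUnitary with hQ
  have hQ1 : (Q : Matrix (Fin n) (Fin n) ℂ)ᴴ * Q = 1 := (Matrix.mem_unitaryGroup_iff').1 Q.2
  have hQ2 : (Q : Matrix (Fin n) (Fin n) ℂ) * (Q : Matrix (Fin n) (Fin n) ℂ)ᴴ = 1 :=
    (Matrix.mem_unitaryGroup_iff).1 Q.2
  set d := hH.eigenvalues with hd
  have hd0 : ∀ j, 0 ≤ d j := hP.eigenvalues_nonneg
  set x := (Q : Matrix (Fin n) (Fin n) ℂ)ᴴ * x0 with hxdef
  have hxd : x * xᴴ = diagonal fun j => (d j : ℂ) := by
    have := hH.conjStarAlgAut_star_eigenvectorUnitary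
    rw [Unitary.conjStarAlgAut_star_apply] at this
    rw [hxdef, conjTranspose_mul, conjTranspose_conjTranspose, Matrix.mul_assoc,
      ← Matrix.mul_assoc x0, ← Matrix.mul_assoc]
    exact this
  let u : FF →* Matrix.unitaryGroup (Fin n) ℂ := (MulAut.conj Q⁻¹).toMonoidHom.comp u0
  have hu : ∀ g, (u g : Matrix (Fin n) (Fin n) ℂ) = (Q : Matrix (Fin n) (Fin n) ℂ)ᴴ * u0 g * Q :=
    fun g => by
      show ((Q⁻¹ * u0 g * Q⁻¹⁻¹ : Matrix.unitaryGroup (Fin n) ℂ) : Matrix (Fin n) (Fin n) ℂ) = _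
      rw [inv_inv]
      rfl
  have hQ3 : (Q : Matrix (Fin n) (Fin n) ℂ)ᴴᴴ * (Q : Matrix (Fin n) (Fin n) ℂ)ᴴ = 1 := by
    rwa [conjTranspose_conjTranspose]
  have hux : ∀ g, (u g : Matrix (Fin n) (Fin n) ℂ) * x =
      (Q : Matrix (Fin n) (Fin n) ℂ)ᴴ * ((u0 g : Matrix (Fin n) (Fin n) ℂ) * x0) := fun g => by
    rw [hu, hxdef, Matrix.mul_assoc, ← Matrix.mul_assoc (Q : Matrix (Fin n) (Fin n) ℂ), hQ2,
      Matrix.one_mul, Matrix.mul_assoc]
  have a1 : ∀ g, hs2 ((u g : Matrix (Fin n) (Fin n) ℂ) * x - x * (v g : Matrix (Fin m) (Fin m) ℂ)) =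
      hs2 ((u0 g : Matrix (Fin n) (Fin n) ℂ) * x0 - x0 * (v g : Matrix (Fin m) (Fin m) ℂ)) := fun g => by
    rw [hux, hxdef, Matrix.mul_assoc, ← Matrix.mul_sub, hs2_iso_mul hQ3]
  have a2 : ∀ g, hs2 (((u g : Matrix (Fin n) (Fin n) ℂ) - 1) * x) =
      hs2 (((u0 g : Matrix (Fin n) (Fin n) ℂ) - 1) * x0) := fun g => by
    rw [Matrix.sub_mul, Matrix.sub_mul, Matrix.one_mul, Matrix.one_mul, hux, hxdef,
      ← Matrix.mul_sub, hs2_iso_mul hQ3]
  have hd1 : ∑ j, d j = 1 := by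
    rw [← hx, ← hs2_iso_mul hQ3, ← hxdef, ← hs2_conjT, hs2, conjTranspose_conjTranspose, hxd,
      trace_diagonal, Complex.re_sum]
    simp
  let col : FF → Fin n → ℝ := fun g j => ∑ i, ‖((u g : Matrix (Fin n) (Fin n) ℂ) - 1) i j‖ ^ 2
  have hcol : ∀ (g : FF) (k : ℕ) (y : Matrix (Fin n) (Fin k) ℂ) (e : Fin n → ℝ),
      y * yᴴ = diagonal (fun j => (e j : ℂ)) →
      ∑ j, col g j * e j = hs2 (((u g : Matrix (Fin n) (Fin n) ℂ) - 1) * y) := by
    intro g k y e hy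
    rw [hs2_mul_diag hy, sum_comm]
    exact sum_congr rfl fun j _ => sum_mul _ _ _
  have hsum : ∀ e : Fin n → ℝ, ∑ j, (col w0 j - 1 / 8 - Λ * ∑ w ∈ W, col w j) * e j =
      ∑ j, col w0 j * e j - 1 / 8 * ∑ j, e j - Λ * ∑ w ∈ W, ∑ j, col w j * e j := by
    intro e
    rw [sum_comm, mul_sum, mul_sum, ← sum_sub_distrib, ← sum_sub_distrib]
    refine sum_congr rfl fun j _ => ?_
    rw [← sum_mul]
    ring
  have hsum2 : ∀ e : Fin n → ℝ,
      ∑ i, ∑ j, (Λ * ∑ g ∈ E, ‖(u g : Matrix (Fin n) (Fin n) ℂ) i j‖ ^ 2) * |e i - e j| =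
      Λ * ∑ g ∈ E, ∑ i, ∑ j, ‖(u g : Matrix (Fin n) (Fin n) ℂ) i j‖ ^ 2 * |e i - e j| := by
    intro e
    rw [sum_comm (s := E), mul_sum]
    refine sum_congr rfl fun i _ => ?_
    rw [sum_comm (s := E), mul_sum]
    refine sum_congr rfl fun j _ => ?_
    rw [← sum_mul, mul_assoc]
  obtain ⟨s, hs⟩ := layer2 (fun j => col w0 j - 1 / 8 - Λ * ∑ w ∈ W, col w j) d
    (fun i j => Λ * ∑ g ∈ E, ‖(u g : Matrix (Fin n) (Fin n) ℂ) i j‖ ^ 2) hd0 (by
      rw [hsum, hsum2, hcol w0 _ x d hxd, a2, hd1]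
      have b1 : ∑ w ∈ W, ∑ j, col w j * d j ≤ W.card * t := by
        rw [← nsmul_eq_mul]
        refine sum_le_card_nsmul _ _ _ fun w hw => ?_
        rw [hcol w _ x d hxd, a2]
        exact (hW' w hw).trans (by nlinarith)
      have b2 : ∑ g ∈ E, ∑ i, ∑ j, ‖(u g : Matrix (Fin n) (Fin n) ℂ) i j‖ ^ 2 * |d i - d j| ≤
          E.card * (2 * t) := by
        rw [← nsmul_eq_mul]
        refine sum_le_card_nsmul _ _ _ fun g hg => ?_
        refine (spread_le hxd hd1 (u g).2 (v g).2 ht0).trans ?_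
        rw [a1]
        have : hs2 ((u0 g : Matrix (Fin n) (Fin n) ℂ) * x0 - x0 * (v g : Matrix (Fin m) (Fin m) ℂ)) / t ≤ t := by
          rw [div_le_iff₀ ht0, ← sq]
          exact hE g hg
        linarith
      have b3 := mul_le_mul_of_nonneg_left b1 hΛ0.le
      have b4 := mul_le_mul_of_nonneg_left b2 hΛ0.le
      nlinarith)
  obtain ⟨k, hk, V, hV1, hV2⟩ : ∃ k, k = (univ.filter fun j => s ≤ d j).card ∧
      ∃ V : Matrix (Fin n) (Fin k) ℂ, Vᴴ * V = 1 ∧ V * Vᴴ = diagonal fun i =>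
        (((if i ∈ (univ.filter fun j => s ≤ d j) then 1 else 0 : ℝ)) : ℂ) :=
    ⟨_, rfl, exists_iso (univ.filter fun j => s ≤ d j)⟩
  have hV3 : V * Vᴴ = diagonal fun j => ((ind s (d j) : ℝ) : ℂ) := by
    rw [hV2]
    simp [ind]
  have hk' : ∑ j, ind s (d j) = k := by
    rw [hk, card_filter, Nat.cast_sum]
    exact sum_congr rfl fun j _ => by unfold ind; split_ifs <;> simp
  rw [hsum, hsum2, hcol w0 _ V _ hV3, hk'] at hs
  simp only [hcol _ _ V _ hV3] at hs
  have c1 : hs2 (((u w0 : Matrix (Fin n) (Fin n) ℂ) - 1) * V) ≤ 4 * k := by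
    have hVk : hs2 V = k := by
      rw [hs2, hV1]; simp
    rw [Matrix.sub_mul, Matrix.one_mul, sub_eq_add_neg]
    refine (hs2_add_le _ _).trans ?_
    rw [hs2_neg, hs2_iso_mul (Matrix.mem_unitaryGroup_iff'.1 (u w0).2), hVk]
    linarith
  have c2 : ∀ w ∈ W, hs2 (((u w : Matrix (Fin n) (Fin n) ℂ) - 1) * V) ≤
      ∑ w ∈ W, hs2 (((u w : Matrix (Fin n) (Fin n) ℂ) - 1) * V) := fun w hw =>
    single_le_sum (f := fun w => hs2 (((u w : Matrix (Fin n) (Fin n) ℂ) - 1) * V))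
      (fun _ _ => hs2_nonneg _) hw
  have c3 : ∀ g ∈ E, hs2 ((1 - V * Vᴴ) * (u g : Matrix (Fin n) (Fin n) ℂ) * V) ≤
      ∑ g ∈ E, ∑ i, ∑ j, ‖(u g : Matrix (Fin n) (Fin n) ℂ) i j‖ ^ 2 *
        |ind s (d i) - ind s (d j)| := by
    intro g hg
    refine le_trans ?_ (single_le_sum (f := fun g => ∑ i, ∑ j,
      ‖(u g : Matrix (Fin n) (Fin n) ℂ) i j‖ ^ 2 * |ind s (d i) - ind s (d j)|)
      (fun _ _ => by positivity) hg)
    rw [hs2_mul_diag hV3, hV3, ← diagonal_one, diagonal_sub]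
    refine sum_le_sum fun i _ => sum_le_sum fun j _ => ?_
    rw [diagonal_mul]
    unfold ind
    split_ifs <;> simp
  have c4 : 0 ≤ ∑ w ∈ W, hs2 (((u w : Matrix (Fin n) (Fin n) ℂ) - 1) * V) :=
    sum_nonneg fun _ _ => hs2_nonneg _
  have c5 : 0 ≤ ∑ g ∈ E, ∑ i, ∑ j, ‖(u g : Matrix (Fin n) (Fin n) ℂ) i j‖ ^ 2 *
      |ind s (d i) - ind s (d j)| := by positivity
  have c6 := mul_nonneg hΛ0.le c4
  have c7 := mul_nonneg hΛ0.le c5
  have hk0 : (0 : ℝ) ≤ k := Nat.cast_nonneg _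
  have fin : ∀ z : ℝ, Λ * z ≤ 4 * k → z ≤ ε * k := fun z hz => by
    rw [hΛ, div_mul_eq_mul_div, div_le_iff₀ hε] at hz
    linarith
  refine ⟨n, k, u, V, ?_, hV1, fun g hg => (c3 g hg).trans (fin _ (by linarith)),
    fun w hw => (c2 w hw).trans (fin _ (by linarith)), by linarith⟩
  have : (0 : ℝ) < k := by linarith
  exact_mod_cast this

end Pool.Agent.P.MP_7f9919_an.C12
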