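import Pool.Agent.P.MP_7f9919_an.C12.St

/-!
Elementary facts about the Frobenius norm, and unitarisation of a contraction.
-/

set_option autoImplicit false
set_option linter.unusedSectionVars false

namespace Pool.Agent.P.MP_7f9919_an.C12

open scoped Matrix ComplexConjugate ComplexOrder
open Matrix Finset

variable {l m n : Type} [Fintype l] [Fintype m] [Fintype n]

theorem hs2_eq (x : Matrix m n ℂ) : hs2 x = ∑ i, ∑ j, ‖x i j‖ ^ 2 := by
  rw [hs2, Finset.sum_comm]
  simp only [Matrix.trace, Matrix.diag, Matrix.mul_apply, conjTranspose_apply, Complex.re_sum]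
  refine sum_congr rfl fun j _ => sum_congr rfl fun i _ => ?_
  rw [Complex.star_def, Complex.conj_mul', ← Complex.ofReal_pow, Complex.ofReal_re]

theorem hs2_nonneg (x : Matrix m n ℂ) : 0 ≤ hs2 x := by
  rw [hs2_eq]; positivity

theorem hs2_zero : hs2 (0 : Matrix m n ℂ) = 0 := by simp [hs2]

theorem hs2_neg (x : Matrix m n ℂ) : hs2 (-x) = hs2 x := by simp [hs2]

theorem hs2_sub_comm (x y : Matrix m n ℂ) : hs2 (x - y) = hs2 (y - x) := by
  rw [← hs2_neg, neg_sub]

theorem hs2_conjT (x : Matrix m n ℂ) : hs2 xᴴ = hs2 x := by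
  rw [hs2, hs2, conjTranspose_conjTranspose, trace_mul_comm]

theorem hs2_add_le (x y : Matrix m n ℂ) : hs2 (x + y) ≤ 2 * hs2 x + 2 * hs2 y := by
  simp only [hs2_eq, mul_sum, ← sum_add_distrib]
  refine sum_le_sum fun i _ => sum_le_sum fun j _ => ?_
  have h := norm_add_le (x i j) (y i j)
  have h2 : ‖x i j + y i j‖ ^ 2 ≤ (‖x i j‖ + ‖y i j‖) ^ 2 := by gcongr
  rw [Matrix.add_apply]
  nlinarith [sq_nonneg (‖x i j‖ - ‖y i j‖)]

theorem hs2_iso_mul [DecidableEq m] {V : Matrix l m ℂ} (hV : Vᴴ * V = 1) (x : Matrix m n ℂ) :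
    hs2 (V * x) = hs2 x := by
  rw [hs2, hs2, conjTranspose_mul, Matrix.mul_assoc, ← Matrix.mul_assoc Vᴴ, hV, Matrix.one_mul]

theorem hs2_mul_coiso [DecidableEq n] {V : Matrix n l ℂ} (hV : V * Vᴴ = 1) (x : Matrix m n ℂ) :
    hs2 (x * V) = hs2 x := by
  rw [← hs2_conjT, conjTranspose_mul, hs2_iso_mul (by rwa [conjTranspose_conjTranspose]), hs2_conjT]

theorem hs2_one [DecidableEq n] : hs2 (1 : Matrix n n ℂ) = Fintype.card n := by
  simp [hs2]

theorem hs2_add (x y : Matrix m n ℂ) :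
    hs2 (x + y) = hs2 x + hs2 y + 2 * (trace (xᴴ * y)).re := by
  have h : (trace (yᴴ * x)).re = (trace (xᴴ * y)).re := by
    rw [← Complex.conj_re, ← Complex.star_def, ← trace_conjTranspose, conjTranspose_mul,
      conjTranspose_conjTranspose]
  simp only [hs2, conjTranspose_add, Matrix.add_mul, Matrix.mul_add, trace_add, Complex.add_re, h]
  ring

theorem hs2_smul (t : ℝ) (x : Matrix m n ℂ) : hs2 ((t : ℂ) • x) = t ^ 2 * hs2 x := by
  simp only [hs2_eq, mul_sum, Matrix.smul_apply, norm_smul, mul_pow, Complex.norm_real,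
    Real.norm_eq_abs, sq_abs]

theorem re_trace_le (x y : Matrix m n ℂ) {t : ℝ} (ht : 0 < t) :
    2 * (trace (xᴴ * y)).re ≤ t * hs2 x + hs2 y / t := by
  have h := hs2_nonneg ((t : ℂ) • x + -y)
  rw [hs2_add, hs2_smul, hs2_neg, conjTranspose_smul, Matrix.smul_mul, Matrix.mul_neg,
    trace_smul, trace_neg] at h
  simp only [Complex.star_def, Complex.conj_ofReal, smul_eq_mul, mul_neg, Complex.neg_re,
    Complex.re_ofReal_mul] at h
  rw [← sub_nonneg]
  have e : t * hs2 x + hs2 y / t - 2 * (trace (xᴴ * y)).re =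
      (t ^ 2 * hs2 x + hs2 y + 2 * -(t * (trace (xᴴ * y)).re)) / t := by
    field_simp
    ring
  rw [e]
  exact div_nonneg (by linarith) ht.le

theorem hs2_mul_diag [DecidableEq m] {x : Matrix m n ℂ} {d : m → ℝ}
    (h : x * xᴴ = diagonal fun i => (d i : ℂ)) (y : Matrix l m ℂ) :
    hs2 (y * x) = ∑ i, ∑ j, ‖y i j‖ ^ 2 * d j := by
  rw [← hs2_conjT, hs2, conjTranspose_conjTranspose, conjTranspose_mul, Matrix.mul_assoc,
    ← Matrix.mul_assoc x, h, ← Matrix.mul_assoc]
  simp only [Matrix.trace, Matrix.diag, Complex.re_sum]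
  refine sum_congr rfl fun i _ => ?_
  rw [Matrix.mul_apply, Complex.re_sum]
  refine sum_congr rfl fun j _ => ?_
  rw [mul_diagonal, conjTranspose_apply, mul_right_comm, Complex.star_def, Complex.mul_conj', ← Complex.ofReal_pow,
    ← Complex.ofReal_mul, Complex.ofReal_re]

theorem col_unitary [DecidableEq n] {u : Matrix m n ℂ} (h : uᴴ * u = 1) (j : n) :
    ∑ i, ‖u i j‖ ^ 2 = 1 := by
  have := congrArg Complex.re (congrFun (congrFun h j) j)
  simp only [Matrix.mul_apply, conjTranspose_apply, one_apply_eq, Complex.one_re,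
    Complex.re_sum] at this
  rw [← this]
  refine sum_congr rfl fun i _ => ?_
  rw [Complex.star_def, Complex.conj_mul', ← Complex.ofReal_pow, Complex.ofReal_re]

/-- A square contraction is close to a unitary. -/
theorem exists_unitary_near [DecidableEq n] (b : Matrix n n ℂ) (hb : (1 - bᴴ * b).PosSemidef) :
    ∃ v ∈ Matrix.unitaryGroup n ℂ, hs2 (b - v) ≤ Fintype.card n - hs2 b := by
  have hP : (bᴴ * b).PosSemidef := posSemidef_conjTranspose_mul_self b
  have hH := hP.isHermitian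
  set W : Matrix n n ℂ := (hH.eigenvectorUnitary : Matrix n n ℂ) with hW
  have hW1 : Wᴴ * W = 1 := (Matrix.mem_unitaryGroup_iff').1 hH.eigenvectorUnitary.2
  have hW2 : W * Wᴴ = 1 := (Matrix.mem_unitaryGroup_iff).1 hH.eigenvectorUnitary.2
  set d := hH.eigenvalues with hd
  have hd0 : ∀ j, 0 ≤ d j := hP.eigenvalues_nonneg
  have hc : (b * W)ᴴ * (b * W) = diagonal fun j => (d j : ℂ) := by
    have := hH.conjStarAlgAut_star_eigenvectorUnitary
    rw [Unitary.conjStarAlgAut_star_apply] at this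
    rw [conjTranspose_mul, Matrix.mul_assoc, ← Matrix.mul_assoc bᴴ, ← Matrix.mul_assoc]
    exact this
  have hd1 : ∀ j, d j ≤ 1 := by
    intro j
    have h1 := (hb.conjTranspose_mul_mul_same W).diag_nonneg (i := j)
    have h2 : Wᴴ * (1 - bᴴ * b) * W = 1 - diagonal fun j => (d j : ℂ) := by
      rw [← hc, Matrix.mul_sub, Matrix.sub_mul, Matrix.mul_one, hW1, conjTranspose_mul]
      simp only [Matrix.mul_assoc]
    rw [h2, Matrix.sub_apply, one_apply_eq, diagonal_apply_eq, sub_nonneg] at h1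
    exact_mod_cast h1
  set c := b * W with hcdef
  have hcc : ∀ j k, ∑ i, conj (c i j) * c i k = if j = k then (d j : ℂ) else 0 := by
    intro j k
    have := congrFun (congrFun hc j) k
    rw [Matrix.mul_apply, diagonal_apply] at this
    exact this
  let v : n → EuclideanSpace ℂ n := fun j => WithLp.toLp 2 fun i => ((√(d j) : ℝ) : ℂ)⁻¹ * c i j
  have hv : Orthonormal ℂ (Set.domRestrict {j | d j ≠ 0} v) := by
    rw [orthonormal_iff_ite]
    rintro ⟨j, hj⟩ ⟨k, hk⟩
    simp only [Set.domRestrict_apply, PiLp.inner_apply, v, RCLike.inner_apply, map_mul, map_inv₀,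
      Complex.conj_ofReal, Subtype.mk.injEq]
    have e : ∑ i, ((√(d k) : ℝ) : ℂ)⁻¹ * c i k * (((√(d j) : ℝ) : ℂ)⁻¹ * conj (c i j)) =
        ((√(d k) : ℝ) : ℂ)⁻¹ * ((√(d j) : ℝ) : ℂ)⁻¹ * ∑ i, conj (c i j) * c i k := by
      rw [mul_sum]
      exact sum_congr rfl fun i _ => by ring
    rw [e, hcc]
    split_ifs with h
    · subst h
      have h0 : ((√(d j) : ℝ) : ℂ) ≠ 0 := by
        exact_mod_cast (Real.sqrt_ne_zero (hd0 j)).2 hj
      have h1 : (d j : ℂ) = ((√(d j) : ℝ) : ℂ) * ((√(d j) : ℝ) : ℂ) := by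
        rw [← Complex.ofReal_mul, Real.mul_self_sqrt (hd0 j)]
      rw [h1]
      field_simp
    · rw [mul_zero]
  obtain ⟨β, hβ⟩ := hv.exists_orthonormalBasis_extension_of_card_eq (by simp)
  let Q : Matrix n n ℂ := fun i j => β j i
  have hQ : Qᴴ * Q = 1 := by
    ext j k
    have := orthonormal_iff_ite.1 β.orthonormal j k
    rw [PiLp.inner_apply] at this
    rw [Matrix.mul_apply, one_apply, ← this]
    exact sum_congr rfl fun i _ => by simp [Q, mul_comm]
  have hcQ : c = Q * diagonal fun j => ((√(d j) : ℝ) : ℂ) := by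
    ext i j
    rw [mul_diagonal]
    by_cases hj : d j = 0
    · have h1 := hcc j j
      rw [if_pos rfl, hj] at h1
      have h2 : ∑ i, ‖c i j‖ ^ 2 = 0 := by
        have := congrArg Complex.re h1
        rw [Complex.re_sum] at this
        rw [← Complex.ofReal_re 0, ← this]
        exact sum_congr rfl fun i _ => by
          rw [Complex.conj_mul', ← Complex.ofReal_pow, Complex.ofReal_re]
      have h3 := (sum_eq_zero_iff_of_nonneg fun i _ => by positivity).1 h2 i (mem_univ _)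
      rw [hj, Real.sqrt_zero, Complex.ofReal_zero, mul_zero]
      simpa using h3
    · have h0 : ((√(d j) : ℝ) : ℂ) ≠ 0 := by
        exact_mod_cast (Real.sqrt_ne_zero (hd0 j)).2 hj
      show _ = β j i * _
      rw [hβ j hj]
      show _ = ((√(d j) : ℝ) : ℂ)⁻¹ * c i j * _
      field_simp
  refine ⟨Q * Wᴴ, ?_, ?_⟩
  · rw [Matrix.mem_unitaryGroup_iff', star_eq_conjTranspose, conjTranspose_mul,
      conjTranspose_conjTranspose, Matrix.mul_assoc, ← Matrix.mul_assoc Qᴴ, hQ, Matrix.one_mul, hW2]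
  · have e1 : hs2 (b - Q * Wᴴ) = ∑ j, (√(d j) - 1) ^ 2 := by
      rw [← hs2_mul_coiso hW2, Matrix.sub_mul, Matrix.mul_assoc, hW1, ← hcdef, hcQ,
        ← Matrix.mul_sub, hs2_iso_mul hQ, ← diagonal_one, diagonal_sub, hs2_eq]
      refine sum_congr rfl fun i _ => ?_
      rw [sum_eq_single i (fun j _ hj => by rw [diagonal_apply_ne _ hj.symm]; simp) (by simp),
        diagonal_apply_eq, ← Complex.ofReal_one, ← Complex.ofReal_sub, Complex.norm_real,
        Real.norm_eq_abs, sq_abs]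
    have e2 : hs2 b = ∑ j, d j := by
      rw [← hs2_mul_coiso hW2, ← hcdef, hs2, hc, trace_diagonal, Complex.re_sum]
      simp
    rw [e1, e2, ← card_univ, card_eq_sum_ones, Nat.cast_sum, ← sum_sub_distrib]
    refine sum_le_sum fun j _ => ?_
    have h1 := Real.sq_sqrt (hd0 j)
    have h2 : √(d j) ≤ 1 := Real.sqrt_le_one.2 (hd1 j)
    have h3 := Real.sqrt_nonneg (d j)
    push_cast
    nlinarith

/-- Transport of a unitary along an isometry. -/
theorem exists_unitary_transport [DecidableEq m] [DecidableEq n] {V : Matrix m n ℂ}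
    (hV : Vᴴ * V = 1) {U : Matrix m m ℂ} (hU : Uᴴ * U = 1) :
    ∃ v ∈ Matrix.unitaryGroup n ℂ, hs2 (U * V - V * v) ≤ 4 * hs2 ((1 - V * Vᴴ) * U * V) := by
  set r := (1 - V * Vᴴ) * U * V with hr
  set b := Vᴴ * U * V with hb
  have h1 : U * V = V * b + r := by
    rw [hr, hb, Matrix.sub_mul, Matrix.sub_mul, Matrix.one_mul]
    simp only [Matrix.mul_assoc]
    abel
  have h2 : Vᴴ * r = 0 := by
    rw [hr, Matrix.mul_assoc, ← Matrix.mul_assoc Vᴴ, Matrix.mul_sub, Matrix.mul_one,
      ← Matrix.mul_assoc Vᴴ, hV, Matrix.one_mul, sub_self, Matrix.zero_mul]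
  have h2' : rᴴ * V = 0 := by
    have := congrArg conjTranspose h2
    rwa [conjTranspose_mul, conjTranspose_conjTranspose, conjTranspose_zero] at this
  have h3 : 1 - bᴴ * b = rᴴ * r := by
    have e : (U * V)ᴴ * (U * V) = 1 := by
      rw [conjTranspose_mul, Matrix.mul_assoc, ← Matrix.mul_assoc Uᴴ, hU, Matrix.one_mul, hV]
    rw [h1, conjTranspose_add, conjTranspose_mul, Matrix.add_mul, Matrix.mul_add, Matrix.mul_add,
      Matrix.mul_assoc bᴴ, Matrix.mul_assoc bᴴ, ← Matrix.mul_assoc Vᴴ V, hV, h2,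
      ← Matrix.mul_assoc rᴴ, h2', Matrix.one_mul, Matrix.mul_zero, Matrix.zero_mul] at e
    rw [← e]
    abel
  obtain ⟨v, hv, h4⟩ := exists_unitary_near b (h3 ▸ posSemidef_conjTranspose_mul_self r)
  refine ⟨v, hv, ?_⟩
  have h5 : Fintype.card n - hs2 b = hs2 r := by
    rw [hs2, hs2, ← h3, trace_sub, trace_one]
    simp
  have h6 : U * V - V * v = V * (b - v) + r := by
    rw [h1, Matrix.mul_sub]
    abel
  rw [h6]
  refine (hs2_add_le _ _).trans ?_
  rw [hs2_iso_mul hV]
  linarith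

end Pool.Agent.P.MP_7f9919_an.C12
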