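import Pool.Agent.P.MP_7f9919_an.C12.Defs
import Pool.Agent.P.MP_7f9919_an.Semi

/-!
Statements of the packages of the C*-part for pair (b).
-/

set_option autoImplicit false

namespace Pool.Agent.P.MP_7f9919_an.C12

open scoped TensorProduct Kronecker Matrix
open Filter

/-- The free group on countably many generators. -/
abbrev FF : Type := FreeGroup ℕ

/-- Squared (unnormalised) Frobenius norm. -/
noncomputable def hs2 {m n : Type} [Fintype m] [Fintype n] (x : Matrix m n ℂ) : ℝ :=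
  (Matrix.trace (xᴴ * x)).re

/-- Operator norm of a square matrix acting on Euclidean space. -/
noncomputable def opn {n : Type} [Fintype n] [DecidableEq n] (x : Matrix n n ℂ) : ℝ :=
  ‖Matrix.toEuclideanCLM (n := n) (𝕜 := ℂ) x‖

/-- Existence of the full group C*-algebra. -/
def S_exist : Prop :=
  ∀ (G : Type) [Group G], ∃ (A : Type) (_ : CStarAlgebra A) (ι : G →* unitary A),
    IsFullGroupCStar ι

/-- Unitary representations extend to the full group C*-algebra. -/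
def S_ext : Prop :=
  ∀ (G : Type) [Group G] (A : Type) [CStarAlgebra A] (ι : G →* unitary A), IsFullGroupCStar ι →
    ∀ (H : Type) [NormedAddCommGroup H] [InnerProductSpace ℂ H] [CompleteSpace H]
      (π : G →* unitary (H →L[ℂ] H)),
      ∃ φ : A →⋆ₐ[ℂ] (H →L[ℂ] H), ∀ g, φ (ι g) = π g

/-- Every C*-seminorm on an algebraic tensor product is a cross subnorm. -/
def S_cross : Prop :=
  ∀ (A B : Type) [CStarAlgebra A] [CStarAlgebra B] (ν : A ⊗[ℂ] B → ℝ), IsCStarSemi ν →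
    ∀ (a : A) (b : B), ν (a ⊗ₜ b) ≤ ‖a‖ * ‖b‖

/-- Upper bound for the number of C*-norms. -/
def S_upper : Prop :=
  ∀ (G : Type) [Group G] [Countable G] (A : Type) [CStarAlgebra A] (ι : G →* unitary A),
    IsFullGroupCStar ι →
      Cardinal.mk {ν : A ⊗[ℂ] A → ℝ // IsCStarNorm ν} ≤ Cardinal.continuum

/-- Finite dimensional approximation of representations of the free group. -/
def S_rfd : Prop :=
  ∀ (H : Type) [NormedAddCommGroup H] [InnerProductSpace ℂ H] [CompleteSpace H]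
    (π : FF →* unitary (H →L[ℂ] H)) (c : FF →₀ ℂ) (r : ℝ),
    r < ‖∑ g ∈ c.support, c g • (π g : H →L[ℂ] H)‖ →
      ∃ (n : ℕ) (u : FF →* Matrix.unitaryGroup (Fin n) ℂ),
        r < opn (∑ g ∈ c.support, c g • (u g : Matrix (Fin n) (Fin n) ℂ))

/-- Some pair of commuting representations of the free group is not approximated by tensor
products of finite dimensional ones. -/
def Sep : Prop :=
  ∃ (H : Type) (_ : NormedAddCommGroup H) (_ : InnerProductSpace ℂ H) (_ : CompleteSpace H)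
    (L R : FF →* unitary (H →L[ℂ] H)) (c : FF × FF →₀ ℂ) (r : ℝ),
    (∀ g h, Commute (L g : H →L[ℂ] H) (R h : H →L[ℂ] H)) ∧
    r < ‖∑ p ∈ c.support, c p • ((L p.1 : H →L[ℂ] H) * (R p.2 : H →L[ℂ] H))‖ ∧
    ∀ (n m : ℕ) (u : FF →* Matrix.unitaryGroup (Fin n) ℂ)
      (v : FF →* Matrix.unitaryGroup (Fin m) ℂ),
      opn (∑ p ∈ c.support, c p •
        ((u p.1 : Matrix (Fin n) (Fin n) ℂ) ⊗ₖ (v p.2 : Matrix (Fin m) (Fin m) ℂ))) ≤ r

/-- The full C*-algebra of the free group is residually finite dimensional. -/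
def S_resfin : Prop :=
  ∀ (A : Type) [CStarAlgebra A] (ι : FF →* unitary A), IsFullGroupCStar ι →
    ∀ a : A, (∀ (n : ℕ) (φ : A →⋆ₐ[ℂ] Matrix (Fin n) (Fin n) ℂ), φ a = 0) → a = 0

/-- Lower bound for the number of C*-norms. -/
def S_many : Prop :=
  Sep → ∀ (A : Type) [CStarAlgebra A] (ι : FF →* unitary A), IsFullGroupCStar ι →
    Cardinal.continuum ≤ Cardinal.mk {ν : A ⊗[ℂ] A → ℝ // IsCStarNorm ν}

/-- A countable group which is not hyperlinear. -/
def S_NH : Prop :=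
  ∃ (H : Type) (_ : Group H) (_ : Countable H) (w0 : H), w0 ≠ 1 ∧
    ∀ (n : ℕ → ℕ) (u : ∀ k, H → Matrix (Fin (n k)) (Fin (n k)) ℂ),
      (∀ k g, u k g ∈ Matrix.unitaryGroup (Fin (n k)) ℂ) →
      (∀ g h, ∀ ε : ℝ, 0 < ε → ∀ᶠ k in atTop, hs2 (u k (g * h) - u k g * u k h) ≤ ε * n k) →
      ∀ ε : ℝ, 0 < ε → ∀ᶠ k in atTop, hs2 (u k w0 - 1) ≤ ε * n k

/-- Almost invariant vectors in tensor products of finite dimensional representations. -/
def AlmVec (N : Set FF) (w0 : FF) : Prop :=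
  ∀ (E W : Finset FF), (∀ w ∈ W, w ∈ N) → ∀ ε : ℝ, 0 < ε →
    ∃ (n m : ℕ) (u : FF →* Matrix.unitaryGroup (Fin n) ℂ)
      (v : FF →* Matrix.unitaryGroup (Fin m) ℂ) (x : Matrix (Fin n) (Fin m) ℂ),
      hs2 x = 1 ∧
      (∀ g ∈ E, hs2 ((u g : Matrix (Fin n) (Fin n) ℂ) * x - x * (v g : Matrix (Fin m) (Fin m) ℂ))
        ≤ ε) ∧
      (∀ w ∈ W, hs2 (((u w : Matrix (Fin n) (Fin n) ℂ) - 1) * x) ≤ ε) ∧
      1 / 4 ≤ hs2 (((u w0 : Matrix (Fin n) (Fin n) ℂ) - 1) * x)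

/-- Almost invariant projections in finite dimensional representations. -/
def AlmProj (N : Set FF) (w0 : FF) : Prop :=
  ∀ (E W : Finset FF), (∀ w ∈ W, w ∈ N) → ∀ ε : ℝ, 0 < ε →
    ∃ (n : ℕ) (u : FF →* Matrix.unitaryGroup (Fin n) ℂ) (p : Matrix (Fin n) (Fin n) ℂ),
      pᴴ = p ∧ p * p = p ∧ p ≠ 0 ∧
      (∀ g ∈ E, hs2 ((u g : Matrix (Fin n) (Fin n) ℂ) * p - p * (u g : Matrix (Fin n) (Fin n) ℂ))
        ≤ ε * hs2 p) ∧
      (∀ w ∈ W, hs2 (((u w : Matrix (Fin n) (Fin n) ℂ) - 1) * p) ≤ ε * hs2 p) ∧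
      1 / 8 * hs2 p ≤ hs2 (((u w0 : Matrix (Fin n) (Fin n) ℂ) - 1) * p)

/-- The regular pair of representations gives almost invariant vectors. -/
def S_K1 : Prop :=
  ¬ Sep → ∀ (H : Type) [Group H] (q : FF →* H) (w0 : FF), q w0 ≠ 1 → AlmVec {w | q w = 1} w0

/-- From vectors to projections. -/
def S_K2 : Prop := ∀ (N : Set FF) (w0 : FF), AlmVec N w0 → AlmProj N w0

/-- From projections to asymptotic representations. -/
def S_K3 : Prop :=
  ∀ (H : Type) [Group H] (q : FF →* H), Function.Surjective q → ∀ w0 : FF,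
    AlmProj {w | q w = 1} w0 →
    ∃ (n : ℕ → ℕ) (u : ∀ k, H → Matrix (Fin (n k)) (Fin (n k)) ℂ),
      (∀ k g, u k g ∈ Matrix.unitaryGroup (Fin (n k)) ℂ) ∧
      (∀ g h, ∀ ε : ℝ, 0 < ε → ∀ᶠ k in atTop, hs2 (u k (g * h) - u k g * u k h) ≤ ε * n k) ∧
      ∀ᶠ k in atTop, 1 / 100 * (n k : ℝ) < hs2 (u k (q w0) - 1)

theorem sep_of (h1 : S_K1) (h2 : S_K2) (h3 : S_K3) (h : S_NH) : Sep := by
  by_contra hs
  obtain ⟨H, _, _, w, hw, hH⟩ := h
  obtain ⟨e, he⟩ := exists_surjective_nat H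
  have hq : Function.Surjective (FreeGroup.lift e) := fun g => by
    obtain ⟨k, rfl⟩ := he g
    exact ⟨FreeGroup.of k, by simp⟩
  obtain ⟨w0, rfl⟩ := hq w
  obtain ⟨n, u, hu, hm, hl⟩ := h3 H _ hq w0 (h2 _ _ (h1 hs H _ w0 hw))
  obtain ⟨k, k1, k2⟩ := (hl.and (hH n u hu hm (1 / 100) (by norm_num))).exists
  exact absurd k2 (not_le.2 k1)

theorem card_b (hu : S_upper) (hm : S_many) (hs : Sep) (A : Type) [CStarAlgebra A]
    (ι : FF →* unitary A) (h : IsFullGroupCStar ι) :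
    Cardinal.mk {ν : A ⊗[ℂ] A → ℝ // IsCStarNorm ν} = 2 ^ Cardinal.aleph0 := by
  rw [Cardinal.two_power_aleph0]
  exact le_antisymm (hu _ A ι h) (hm hs A ι h)

end Pool.Agent.P.MP_7f9919_an.C12
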